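import Mathlib

/-!
# The Cayley transform
-/

set_option autoImplicit false

namespace Pool.Agent.Lib.MP_ec05f5_lc.Ess

open Complex

variable {A : Type*} [CStarAlgebra A]

theorem isUnit_one_sub {a : A} (ha : IsSelfAdjoint a) : IsUnit (1 - I • a) := by
  have h : (-I : ℂ) ∉ spectrum ℂ a := fun h => by
    have h2 := ha.mem_spectrum_eq_re h
    have h3 := congrArg Complex.im h2
    simp at h3
  rw [spectrum.notMem_iff] at h
  have e : 1 - I • a = I • (algebraMap ℂ A (-I) - a) := by
    rw [Algebra.algebraMap_eq_smul_one, smul_sub, smul_smul]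
    simp
  rw [e]
  exact (isUnit_smul_iff (Units.mk0 I I_ne_zero) _).2 h

/-- The resolvent. -/
noncomputable def res (a : A) : A := Ring.inverse (1 - I • a)

/-- The Cayley transform, as an element. -/
noncomputable def cayE (a : A) : A := (2 : ℂ) • res a - 1

theorem mul_res {a : A} (ha : IsSelfAdjoint a) : (1 - I • a) * res a = 1 :=
  Ring.mul_inverse_cancel _ (isUnit_one_sub ha)

theorem res_mul {a : A} (ha : IsSelfAdjoint a) : res a * (1 - I • a) = 1 :=
  Ring.inverse_mul_cancel _ (isUnit_one_sub ha)

theorem star_one_sub {a : A} (ha : IsSelfAdjoint a) : star (1 - I • a) = 1 + I • a := by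
  rw [star_sub, star_one, star_smul, ha.star_eq]
  simp

theorem mul_star_res {a : A} (ha : IsSelfAdjoint a) : (1 + I • a) * star (res a) = 1 := by
  rw [← star_one_sub ha, ← star_mul, res_mul ha, star_one]

theorem star_res_mul {a : A} (ha : IsSelfAdjoint a) : star (res a) * (1 + I • a) = 1 := by
  rw [← star_one_sub ha, ← star_mul, mul_res ha, star_one]

theorem two_eq (a : A) : (1 - I • a) + (1 + I • a) = (2 : ℂ) • (1 : A) := by
  rw [two_smul]
  abel

theorem star_res_mul_res {a : A} (ha : IsSelfAdjoint a) :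
    res a + star (res a) = (2 : ℂ) • (star (res a) * res a) := by
  calc res a + star (res a)
      = star (res a) * (1 + I • a) * res a + star (res a) * ((1 - I • a) * res a) := by
        rw [star_res_mul ha, mul_res ha, one_mul, mul_one]
    _ = star (res a) * ((1 - I • a) + (1 + I • a)) * res a := by noncomm_ring
    _ = _ := by rw [two_eq, mul_smul_comm, mul_one, smul_mul_assoc]

theorem res_mul_star_res {a : A} (ha : IsSelfAdjoint a) :
    res a + star (res a) = (2 : ℂ) • (res a * star (res a)) := by
  calc res a + star (res a)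
      = res a * ((1 + I • a) * star (res a)) + res a * (1 - I • a) * star (res a) := by
        rw [mul_star_res ha, res_mul ha, one_mul, mul_one]
    _ = res a * ((1 - I • a) + (1 + I • a)) * star (res a) := by noncomm_ring
    _ = _ := by rw [two_eq, mul_smul_comm, mul_one, smul_mul_assoc]

theorem star_cayE (a : A) : star (cayE a) = (2 : ℂ) • star (res a) - 1 := by
  rw [cayE, star_sub, star_smul, star_one]
  simp

theorem cayE_mem {a : A} (ha : IsSelfAdjoint a) : cayE a ∈ unitary A := by
  rw [Unitary.mem_iff, star_cayE, cayE]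
  constructor
  · have h := star_res_mul_res ha
    calc ((2 : ℂ) • star (res a) - 1) * ((2 : ℂ) • res a - 1)
        = (2 : ℂ) • ((2 : ℂ) • (star (res a) * res a)) - (2 : ℂ) • (res a + star (res a)) + 1 := by
          simp only [sub_mul, mul_sub, smul_mul_assoc, mul_smul_comm, one_mul, mul_one]
          module
      _ = 1 := by rw [← h]; abel
  · have h := res_mul_star_res ha
    calc ((2 : ℂ) • res a - 1) * ((2 : ℂ) • star (res a) - 1)
        = (2 : ℂ) • ((2 : ℂ) • (res a * star (res a))) - (2 : ℂ) • (res a + star (res a)) + 1 := by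
          simp only [sub_mul, mul_sub, smul_mul_assoc, mul_smul_comm, one_mul, mul_one]
          module
      _ = 1 := by rw [← h]; abel

theorem norm_unitary_le {u : A} (hu : u ∈ unitary A) : ‖u‖ ≤ 1 := by
  have h1 : ‖u‖ * ‖u‖ = ‖(1 : A)‖ := by
    rw [← CStarRing.norm_star_mul_self, (Unitary.mem_iff.1 hu).1]
  have h2 : ‖(1 : A)‖ * ‖(1 : A)‖ = ‖(1 : A)‖ := by
    rw [← CStarRing.norm_star_mul_self, star_one, one_mul]
  have h3 : ‖(1 : A)‖ ≤ 1 := by
    nlinarith [norm_nonneg (1 : A)]
  nlinarith [norm_nonneg u]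

theorem norm_res_le {a : A} (ha : IsSelfAdjoint a) : ‖res a‖ ≤ 1 := by
  have h1 : (2 : ℂ) • res a = cayE a + 1 := by rw [cayE]; abel
  have h2 : ‖(2 : ℂ) • res a‖ ≤ 2 := by
    rw [h1]
    calc ‖cayE a + 1‖ ≤ ‖cayE a‖ + ‖(1 : A)‖ := norm_add_le _ _
      _ ≤ 1 + 1 := add_le_add (norm_unitary_le (cayE_mem ha)) (norm_unitary_le (one_mem _))
      _ = 2 := by norm_num
  rw [norm_smul] at h2
  have h3 : ‖(2 : ℂ)‖ = 2 := by simp
  rw [h3] at h2
  linarith

theorem norm_cayE_sub_le {a b : A} (ha : IsSelfAdjoint a) (hb : IsSelfAdjoint b) :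
    ‖cayE a - cayE b‖ ≤ 2 * ‖a - b‖ := by
  have h1 : cayE a - cayE b = (2 : ℂ) • (res a * (I • (a - b)) * res b) := by
    have h2 : res a * (I • (a - b)) * res b = res a - res b := by
      calc res a * (I • (a - b)) * res b
          = res a * ((1 - I • b) * res b) - res a * (1 - I • a) * res b := by
            rw [smul_sub]; noncomm_ring
        _ = _ := by rw [mul_res hb, res_mul ha, mul_one, one_mul]
    rw [h2, cayE, cayE, smul_sub]
    abel
  have h3 : ‖(2 : ℂ)‖ = 2 := by simp
  rw [h1, norm_smul, h3]
  have h4 : ‖res a * (I • (a - b)) * res b‖ ≤ ‖a - b‖ := by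
    calc ‖res a * (I • (a - b)) * res b‖ ≤ ‖res a‖ * ‖I • (a - b)‖ * ‖res b‖ :=
          (norm_mul_le _ _).trans (by gcongr; exact norm_mul_le _ _)
      _ ≤ 1 * ‖I • (a - b)‖ * 1 := by
          gcongr
          · exact norm_res_le ha
          · exact norm_res_le hb
      _ = ‖a - b‖ := by rw [norm_smul, norm_I]; ring
  linarith

theorem cayE_add {a b : A} (ha : IsSelfAdjoint a) (hb : IsSelfAdjoint b)
    (hab : a * b = 0) (hba : b * a = 0) : cayE (a + b) = cayE a * cayE b := by
  have hu : (1 - I • b) * (1 - I • a) = 1 - I • (a + b) := by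
    calc (1 - I • b) * (1 - I • a) = 1 - I • (a + b) + (I * I) • (b * a) := by
          simp only [sub_mul, mul_sub, smul_mul_assoc, mul_smul_comm, one_mul, mul_one]
          module
      _ = _ := by rw [hba, smul_zero, add_zero]
  have hr : res (a + b) = res a * res b := by
    have h1 : (res a * res b) * (1 - I • (a + b)) = 1 := by
      rw [← hu]
      calc res a * res b * ((1 - I • b) * (1 - I • a))
          = res a * (res b * (1 - I • b)) * (1 - I • a) := by noncomm_ring
        _ = 1 := by rw [res_mul hb, mul_one, res_mul ha]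
    calc res (a + b) = 1 * res (a + b) := (one_mul _).symm
      _ = (res a * res b * (1 - I • (a + b))) * res (a + b) := by rw [h1]
      _ = (res a * res b) * ((1 - I • (a + b)) * res (a + b)) := by rw [mul_assoc]
      _ = _ := by rw [mul_res (ha.add hb), mul_one]
  have h1 : res a - 1 = res a * (I • a) := by
    calc res a - 1 = res a * 1 - res a * (1 - I • a) := by rw [res_mul ha, mul_one]
      _ = _ := by noncomm_ring
  have h2 : res b - 1 = (I • b) * res b := by
    calc res b - 1 = 1 * res b - (1 - I • b) * res b := by rw [mul_res hb, one_mul]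
      _ = _ := by noncomm_ring
  have h3 : (res a - 1) * (res b - 1) = 0 := by
    rw [h1, h2]
    calc res a * (I • a) * ((I • b) * res b) = (I * I) • (res a * (a * b) * res b) := by
          simp only [smul_mul_assoc, mul_smul_comm, smul_smul, mul_assoc]
      _ = 0 := by rw [hab]; simp
  have h4 : res a * res b = res a + res b - 1 := by
    have : res a * res b - (res a + res b - 1) = (res a - 1) * (res b - 1) := by noncomm_ring
    rw [h3] at this
    exact sub_eq_zero.1 this
  rw [cayE, hr]
  calc (2 : ℂ) • (res a * res b) - 1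
      = (2 : ℂ) • ((2 : ℂ) • (res a * res b)) - (2 : ℂ) • (res a * res b) - 1 := by
        rw [two_smul ℂ ((2 : ℂ) • (res a * res b))]; abel
    _ = (2 : ℂ) • ((2 : ℂ) • (res a * res b)) - (2 : ℂ) • (res a + res b - 1) - 1 := by
        rw [← h4]
    _ = cayE a * cayE b := by
        rw [cayE, cayE]
        simp only [sub_mul, mul_sub, smul_mul_assoc, mul_smul_comm, one_mul, mul_one, smul_add,
          smul_sub]
        rw [two_smul ℂ (1 : A)]
        abel

/-- The Cayley transform. -/
noncomputable def cay (a : selfAdjoint A) : unitary A := ⟨cayE (a : A), cayE_mem a.2⟩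

section operators

variable {H : Type*} [NormedAddCommGroup H] [InnerProductSpace ℂ H] [CompleteSpace H]

theorem res_apply {a : H →L[ℂ] H} (ha : IsSelfAdjoint a) {x : H} {t : ℝ}
    (hx : a x = (t : ℂ) • x) : res a x = (1 - I * t)⁻¹ • x := by
  have h0 : (1 - I * t : ℂ) ≠ 0 := by
    intro h
    have := congrArg Complex.re h
    simp at this
  have h1 : (1 - I • a) x = (1 - I * t : ℂ) • x := by
    rw [sub_apply, one_apply_eq_self,
      smul_apply, hx, smul_smul, sub_smul, one_smul]
  calc res a x = res a ((1 - I * t : ℂ)⁻¹ • ((1 - I * t : ℂ) • x)) := by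
        rw [smul_smul, inv_mul_cancel₀ h0, one_smul]
    _ = (1 - I * t : ℂ)⁻¹ • (res a * (1 - I • a)) x := by
        rw [map_smul, ← h1, mul_apply_eq_comp]
    _ = _ := by rw [res_mul ha, one_apply_eq_self]

theorem cayE_apply_of_zero {a : H →L[ℂ] H} (ha : IsSelfAdjoint a) {x : H} (hx : a x = 0) :
    cayE a x = x := by
  have h := res_apply (t := 0) ha (x := x) (by simpa using hx)
  rw [cayE, sub_apply, one_apply_eq_self,
    smul_apply, h]
  simp [two_smul]

theorem cayE_apply_of_eq {a : H →L[ℂ] H} (ha : IsSelfAdjoint a) {x : H} (hx : a x = x) :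
    cayE a x = I • x := by
  have h := res_apply (t := 1) ha (x := x) (by simpa using hx)
  rw [cayE, sub_apply, one_apply_eq_self,
    smul_apply, h, smul_smul]
  have e : (2 : ℂ) * (1 - I * (1 : ℝ))⁻¹ = I + 1 := by
    have h0 : (1 - I * (1 : ℝ) : ℂ) ≠ 0 := by
      intro h
      have := congrArg Complex.re h
      simp at this
    rw [← div_eq_mul_inv, div_eq_iff h0]
    push_cast
    ring_nf
    rw [I_sq]
    ring
  rw [e, add_smul, one_smul]
  abel

end operators

end Pool.Agent.Lib.MP_ec05f5_lc.Ess
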