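import Pool.Agent.Lib.MP_ec05f5_lc.Ess.Group

/-!
# Baire category on the space of isometries
-/

set_option autoImplicit false

namespace Pool.Agent.Lib.MP_ec05f5_lc.Ess

open Filter Topology Set

/-- A Borel function is continuous on a comeager set. -/
theorem residual_continuousOn {X Y : Type*} [TopologicalSpace X] [MeasurableSpace X]
    [BorelSpace X] [TopologicalSpace Y] [SecondCountableTopology Y] [MeasurableSpace Y]
    [BorelSpace Y] {f : X → Y} (hf : Measurable f) : ∃ C ∈ residual X, ContinuousOn f C := by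
  let B := TopologicalSpace.countableBasis Y
  have hB : TopologicalSpace.IsTopologicalBasis B := TopologicalSpace.isBasis_countableBasis Y
  have hBc : Countable B := (TopologicalSpace.countable_countableBasis Y).to_subtype
  have h1 : ∀ s : B, ∃ U : Set X, IsOpen U ∧ (f ⁻¹' s.1) =ᵇ U := fun s =>
    (hf (hB.isOpen s.2).measurableSet).residualEq_isOpen
  choose U hUo hU using h1
  refine ⟨{x | ∀ s : B, (x ∈ f ⁻¹' s.1 ↔ x ∈ U s)}, ?_, ?_⟩
  · have : ∀ᶠ x in residual X, ∀ s : B, (x ∈ f ⁻¹' s.1 ↔ x ∈ U s) := by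
      rw [eventually_countable_forall]
      exact fun s => (hU s).mem_iff
    exact this
  · rw [continuousOn_iff_continuous_domRestrict, hB.continuous_iff]
    intro s hs
    have : (Set.domRestrict {x | ∀ s : B, (x ∈ f ⁻¹' s.1 ↔ x ∈ U s)} f) ⁻¹' s =
        Subtype.val ⁻¹' U ⟨s, hs⟩ := by
      ext ⟨x, hx⟩
      exact hx ⟨s, hs⟩
    rw [this]
    exact (hUo _).preimage continuous_subtype_val

variable {H : Type*} [NormedAddCommGroup H] [InnerProductSpace ℂ H] [CompleteSpace H]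
variable {b : HilbertBasis ℕ ℂ H}

/-- An invariant comeager set on which all the functions are continuous. -/
theorem exists_invariant [MeasurableSpace (Iso b)] [BorelSpace (Iso b)] {X : ℕ → Type*}
    [∀ n, PseudoMetricSpace (X n)] [∀ n, SecondCountableTopology (X n)]
    [∀ n, MeasurableSpace (X n)] [∀ n, BorelSpace (X n)] {f : Iso b → ∀ n, X n}
    (hf : ∀ n, Measurable fun V => f V n) :
    ∃ C : Set (Iso b), IsGδ C ∧ Dense C ∧ (∀ V ∈ C, ∀ q ∈ QQ b, V.actU q ∈ C) ∧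
      ∀ n, ContinuousOn (fun V => f V n) C := by
  choose D hD hDc using fun n => residual_continuousOn (hf n)
  have hD' : (⋂ n, D n) ∈ residual (Iso b) := countable_iInter_mem.2 hD
  obtain ⟨T, hTD, hTG, hTd⟩ := mem_residual.1 hD'
  have hQ : ∀ q : QQ b, IsGδ {V : Iso b | V.actU q.1 ∈ T} ∧ Dense {V : Iso b | V.actU q.1 ∈ T} := by
    intro q
    constructor
    · obtain ⟨u, hu, hTu⟩ := isGδ_iff_eq_iInter_nat.1 hTG
      have e : {V : Iso b | V.actU q.1 ∈ T} = ⋂ n, {V : Iso b | V.actU q.1 ∈ u n} := by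
        ext V
        simp [hTu]
      rw [e]
      exact .iInter_of_isOpen fun n => (hu n).preimage (Iso.continuous_actU q.1)
    · exact hTd.preimage (Iso.homeo (b := b) q.1).isOpenMap
  refine ⟨⋂ q : QQ b, {V : Iso b | V.actU q.1 ∈ T}, IsGδ.iInter fun q => (hQ q).1,
    dense_iInter_of_Gδ (fun q => (hQ q).1) (fun q => (hQ q).2), ?_, ?_⟩
  · intro V hV q hq
    rw [mem_iInter] at hV ⊢
    intro q'
    have := hV (⟨q, hq⟩ * q')
    simp only [mem_ofPred_eq, Subgroup.coe_mul, Iso.actU_mul] at this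
    exact this
  · intro n
    refine (hDc n).mono fun V hV => ?_
    have h1 : V ∈ T := by
      have := mem_iInter.1 hV 1
      simpa [Iso.actU_one] using this
    exact mem_iInter.1 (hTD h1) n

variable {X : ℕ → Type*} [∀ n, PseudoMetricSpace (X n)]

/-- The points near which the functions have small changes under small elements of the group. -/
def Good (f : Iso b → ∀ n, X n) (C : Set (Iso b)) (ε : ℝ) : Set (Iso b) :=
  {V | ∃ O : Set (Iso b), IsOpen O ∧ V ∈ O ∧ ∃ δ > 0, ∃ N : ℕ, ∀ W ∈ C, W ∈ O → ∀ q ∈ QQ b,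
    ‖(q : H →L[ℂ] H) - 1‖ < δ → ∀ n ≥ N, dist (f (W.actU q) n) (f W n) ≤ ε}

theorem isOpen_Good (f : Iso b → ∀ n, X n) (C : Set (Iso b)) (ε : ℝ) : IsOpen (Good f C ε) := by
  rw [isOpen_iff_forall_mem_open]
  rintro V ⟨O, hO, hV, h⟩
  exact ⟨O, fun W hW => ⟨O, hO, hW, h⟩, hO, hV⟩

theorem exists_near {g : GG b} {U : Set (GG b)} (hU : IsOpen U) (hg : g ∈ U) :
    ∃ q, ∃ hq : q ∈ QQ b, (⟨(q : H →L[ℂ] H), coe_mem_GG hq⟩ : GG b) ∈ U := by
  obtain ⟨t, ht, rfl⟩ := isOpen_induced_iff.1 hU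
  obtain ⟨_, hx, q, hq, rfl⟩ := mem_closure_iff.1 g.2 t ht hg
  exact ⟨q, hq, hx⟩

theorem dense_Good {f : Iso b → ∀ n, X n} {C : Set (Iso b)} (hCG : IsGδ C) (hCd : Dense C)
    (hCQ : ∀ V ∈ C, ∀ q ∈ QQ b, V.actU q ∈ C) (hCc : ∀ n, ContinuousOn (fun V => f V n) C)
    (hf : ∀ (V : Iso b) (g : H →L[ℂ] H) (hg : g ∈ GG b),
      Tendsto (fun n => dist (f (V.act g (star_mul_of_mem hg)) n) (f V n)) atTop (𝓝 0))
    {ε : ℝ} (hε : 0 < ε) : Dense (Good f C ε) := by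
  -- the set of pairs
  let D : Set (GG b × Iso b) := {z | z.2 ∈ C} ∩ {z | Iso.actG z ∈ C}
  obtain ⟨u, hu, hCu⟩ := isGδ_iff_eq_iInter_nat.1 hCG
  have hD1 : IsGδ {z : GG b × Iso b | z.2 ∈ C} := by
    have e : {z : GG b × Iso b | z.2 ∈ C} = ⋂ n, {z : GG b × Iso b | z.2 ∈ u n} := by
      ext z
      simp [hCu]
    rw [e]
    exact .iInter_of_isOpen fun n => (hu n).preimage continuous_snd
  have hD2 : IsGδ {z : GG b × Iso b | Iso.actG z ∈ C} := by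
    have e : {z : GG b × Iso b | Iso.actG z ∈ C} =
        ⋂ n, {z : GG b × Iso b | Iso.actG z ∈ u n} := by
      ext z
      simp [hCu]
    rw [e]
    exact .iInter_of_isOpen fun n => (hu n).preimage Iso.continuous_actG
  have hd1 : Dense {z : GG b × Iso b | z.2 ∈ C} := hCd.preimage isOpenMap_snd
  have hd2 : Dense {z : GG b × Iso b | Iso.actG z ∈ C} := by
    rw [dense_iff_inter_open]
    rintro W hW ⟨⟨g, V⟩, hgV⟩
    obtain ⟨U₁, O₁, hU₁, hO₁, hg, hV, hsub⟩ := isOpen_prod_iff.1 hW g V hgV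
    obtain ⟨q, hq, hqU⟩ := exists_near hU₁ hg
    have h2 : Dense {V : Iso b | V.actU q ∈ C} := hCd.preimage (Iso.homeo (b := b) q).isOpenMap
    obtain ⟨V', hV', hV'C⟩ := dense_iff_inter_open.1 h2 O₁ hO₁ ⟨V, hV⟩
    exact ⟨(⟨(q : H →L[ℂ] H), coe_mem_GG hq⟩, V'), hsub ⟨hqU, hV'⟩, hV'C⟩
  have hDG : IsGδ D := hD1.inter hD2
  have hDd : Dense D := hd1.inter_of_Gδ hD1 hD2 hd2
  -- the closed sets
  let A : ℕ → Set (GG b × Iso b) := fun N =>
    {z | z ∈ D ∧ ∀ n ≥ N, dist (f (Iso.actG z) n) (f z.2 n) ≤ ε / 2}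
  have hcov : D ⊆ ⋃ N, closure (A N) := by
    intro z hz
    have h := hf z.2 z.1.1 z.1.2
    have h1 := (h.eventually_lt_const (half_pos hε)).exists_forall_of_atTop
    obtain ⟨N, hN⟩ := h1
    exact mem_iUnion.2 ⟨N, subset_closure ⟨hz, fun n hn => (hN n hn).le⟩⟩
  have hden := hDG.dense_iUnion_interior_of_closed hDd (fun N => isClosed_closure) hcov
  have hval : ∀ N, ∀ z ∈ D, z ∈ interior (closure (A N)) → ∀ n ≥ N,
      dist (f (Iso.actG z) n) (f z.2 n) ≤ ε / 2 := by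
    intro N z hz hz' n hn
    have hc : ContinuousOn (fun z : GG b × Iso b => dist (f (Iso.actG z) n) (f z.2 n)) D := by
      exact continuous_dist.comp_continuousOn
        (((hCc n).comp Iso.continuous_actG.continuousOn fun z hz => hz.2).prodMk
          ((hCc n).comp continuous_snd.continuousOn fun z hz => hz.1))
    exact ContinuousWithinAt.closure_le (interior_subset hz')
      ((hc z hz).mono fun w hw => hw.1) continuousWithinAt_const fun w hw => hw.2 n hn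
  -- density
  rw [dense_iff_inter_open]
  intro O hO ⟨V₁, hV₁⟩
  have hopen : IsOpen {z : GG b × Iso b | Iso.actG z ∈ O} := hO.preimage Iso.continuous_actG
  have hne : {z : GG b × Iso b | Iso.actG z ∈ O}.Nonempty := by
    refine ⟨(⟨((1 : unitary (H →L[ℂ] H)) : H →L[ℂ] H), coe_mem_GG (one_mem _)⟩, V₁), ?_⟩
    rw [mem_ofPred_eq, Iso.actG_coe _ (one_mem _), Iso.actU_one]
    exact hV₁
  obtain ⟨⟨g₀, V₀⟩, hz₀, hz₀'⟩ := dense_iff_inter_open.1 hden _ hopen hne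
  obtain ⟨N, hN⟩ := mem_iUnion.1 hz₀'
  obtain ⟨U₁, O₁, hU₁, hO₁, hg, hV, hsub⟩ := isOpen_prod_iff.1
    (hopen.inter (isOpen_interior (s := closure (A N)))) g₀ V₀ ⟨hz₀, hN⟩
  obtain ⟨q₀, hq₀, hqU⟩ := exists_near hU₁ hg
  obtain ⟨δ, hδ, hball⟩ := Metric.isOpen_iff.1 hU₁ _ hqU
  have hO' : IsOpen {W : Iso b | W.actU q₀⁻¹ ∈ O₁} := hO₁.preimage (Iso.continuous_actU q₀⁻¹)
  have h0 : V₀.actU q₀ ∈ O := (hsub (⟨hqU, hV⟩ :
    ((⟨(q₀ : H →L[ℂ] H), coe_mem_GG hq₀⟩ : GG b), V₀) ∈ U₁ ×ˢ O₁)).1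
  refine ⟨V₀.actU q₀, h0, {W : Iso b | W.actU q₀⁻¹ ∈ O₁}, hO', ?_, δ, hδ, N, ?_⟩
  · rw [mem_ofPred_eq, Iso.actU_inv]
    exact hV
  · intro W hWC hWO q hq hqδ n hn
    have hVC : W.actU q₀⁻¹ ∈ C := hCQ W hWC _ ((QQ b).inv_mem hq₀)
    have hmem : ((q₀ * q : unitary (H →L[ℂ] H)) : H →L[ℂ] H) ∈ GG b :=
      coe_mem_GG ((QQ b).mul_mem hq₀ hq)
    have hqU' : (⟨((q₀ * q : unitary (H →L[ℂ] H)) : H →L[ℂ] H), hmem⟩ : GG b) ∈ U₁ := by
      apply hball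
      rw [Metric.mem_ball, Subtype.dist_eq, dist_eq_norm]
      have e : ((q₀ * q : unitary (H →L[ℂ] H)) : H →L[ℂ] H) - (q₀ : H →L[ℂ] H) =
          (q₀ : H →L[ℂ] H) * ((q : H →L[ℂ] H) - 1) := by
        rw [Submonoid.coe_mul, mul_sub, mul_one]
      rw [e]
      calc ‖(q₀ : H →L[ℂ] H) * ((q : H →L[ℂ] H) - 1)‖
          ≤ ‖(q₀ : H →L[ℂ] H)‖ * ‖(q : H →L[ℂ] H) - 1‖ := norm_mul_le _ _
        _ ≤ 1 * ‖(q : H →L[ℂ] H) - 1‖ := by
            gcongr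
            exact norm_unitary_le q₀.2
        _ < δ := by rw [one_mul]; exact hqδ
    have e1 : (W.actU q₀⁻¹).actU q₀ = W := Iso.actU_inv' W q₀
    have e2 : (W.actU q₀⁻¹).actU (q₀ * q) = W.actU q := by rw [Iso.actU_mul, e1]
    have h1 := hval N (⟨(q₀ : H →L[ℂ] H), coe_mem_GG hq₀⟩, W.actU q₀⁻¹)
      ⟨hVC, by rw [mem_ofPred_eq, Iso.actG_coe _ hq₀, e1]; exact hWC⟩
      (hsub (⟨hqU, hWO⟩ : ((⟨(q₀ : H →L[ℂ] H), coe_mem_GG hq₀⟩ : GG b), W.actU q₀⁻¹) ∈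
        U₁ ×ˢ O₁)).2 n hn
    have h2 := hval N (⟨((q₀ * q : unitary (H →L[ℂ] H)) : H →L[ℂ] H), hmem⟩, W.actU q₀⁻¹)
      ⟨hVC, by
        rw [mem_ofPred_eq, Iso.actG_coe _ ((QQ b).mul_mem hq₀ hq), e2]
        exact hCQ W hWC q hq⟩
      (hsub (⟨hqU', hWO⟩ : ((⟨((q₀ * q : unitary (H →L[ℂ] H)) : H →L[ℂ] H), hmem⟩ : GG b),
        W.actU q₀⁻¹) ∈ U₁ ×ˢ O₁)).2 n hn
    rw [Iso.actG_coe _ hq₀, e1] at h1
    rw [Iso.actG_coe _ ((QQ b).mul_mem hq₀ hq), e2] at h2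
    calc dist (f (W.actU q) n) (f W n)
        ≤ dist (f (W.actU q) n) (f (W.actU q₀⁻¹) n) + dist (f W n) (f (W.actU q₀⁻¹) n) :=
          dist_triangle_right _ _ _
      _ ≤ ε / 2 + ε / 2 := add_le_add h2 h1
      _ = ε := by ring

/-- Points all of whose translates are good. -/
theorem exists_good {f : Iso b → ∀ n, X n} {C : Set (Iso b)} (hCG : IsGδ C) (hCd : Dense C)
    (hCQ : ∀ V ∈ C, ∀ q ∈ QQ b, V.actU q ∈ C) (hCc : ∀ n, ContinuousOn (fun V => f V n) C)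
    (hf : ∀ (V : Iso b) (g : H →L[ℂ] H) (hg : g ∈ GG b),
      Tendsto (fun n => dist (f (V.act g (star_mul_of_mem hg)) n) (f V n)) atTop (𝓝 0)) :
    ∃ V ∈ C, ∀ q ∈ QQ b, ∀ ε > 0, V.actU q ∈ Good f C ε := by
  have hne : Nonempty (Iso b) := ⟨⟨1, by simp⟩⟩
  have h1 : ∀ t : QQ b × ℕ, IsGδ {V : Iso b | V.actU t.1.1 ∈ Good f C (1 / ((t.2 : ℝ) + 1))} ∧
      Dense {V : Iso b | V.actU t.1.1 ∈ Good f C (1 / ((t.2 : ℝ) + 1))} := fun t =>
    ⟨((isOpen_Good f C _).preimage (Iso.continuous_actU t.1.1)).isGδ,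
      (dense_Good hCG hCd hCQ hCc hf (by positivity)).preimage
        (Iso.homeo (b := b) t.1.1).isOpenMap⟩
  have h2 := hCd.inter_of_Gδ hCG (IsGδ.iInter fun t => (h1 t).1)
    (dense_iInter_of_Gδ (fun t => (h1 t).1) (fun t => (h1 t).2))
  obtain ⟨V, hV, hV'⟩ := h2.nonempty
  refine ⟨V, hV, fun q hq ε hε => ?_⟩
  obtain ⟨m, hm⟩ := exists_nat_one_div_lt hε
  obtain ⟨O, hO, hVO, δ, hδ, N, hN⟩ := mem_iInter.1 hV' (⟨q, hq⟩, m)
  exact ⟨O, hO, hVO, δ, hδ, N, fun W hW hWO q hq hqδ n hn =>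
    (hN W hW hWO q hq hqδ n hn).trans hm.le⟩

end Pool.Agent.Lib.MP_ec05f5_lc.Ess
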