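import Mathlib

/-!
# The space of isometries of a Hilbert space with the strong operator topology
-/

set_option autoImplicit false

namespace Pool.Agent.Lib.MP_ec05f5_lc.Ess

open Filter Topology Set
open scoped InnerProductSpace

variable {H : Type*} [NormedAddCommGroup H] [InnerProductSpace ℂ H] [CompleteSpace H]

/-- The isometries of `H`. -/
def Iso (_b : HilbertBasis ℕ ℂ H) : Type _ := {V : H →L[ℂ] H // star V * V = 1}

variable {b : HilbertBasis ℕ ℂ H}

namespace Iso

/-- The operator. -/
def op (V : Iso b) : H →L[ℂ] H := V.1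

/-- The images of the basis vectors. -/
noncomputable def vec (V : Iso b) (i : ℕ) : H := V.op (b i)

theorem star_op_mul (V : Iso b) : star V.op * V.op = 1 := V.2

theorem inner_op (V : Iso b) (x y : H) : ⟪V.op x, V.op y⟫_ℂ = ⟪x, y⟫_ℂ := by
  rw [← ContinuousLinearMap.adjoint_inner_right, ← ContinuousLinearMap.star_eq_adjoint,
    ← mul_apply_eq_comp, V.star_op_mul, one_apply_eq_self]

theorem norm_op (V : Iso b) (x : H) : ‖V.op x‖ = ‖x‖ := by
  rw [@norm_eq_sqrt_re_inner ℂ, V.inner_op, ← @norm_eq_sqrt_re_inner ℂ]

theorem orthonormal_vec (V : Iso b) : Orthonormal ℂ V.vec := by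
  constructor
  · intro i
    rw [vec, V.norm_op]
    exact b.orthonormal.1 i
  · intro i j hij
    simp only [vec, V.inner_op]
    exact b.orthonormal.2 hij

theorem ext_op {V W : Iso b} (h : V.op = W.op) : V = W := Subtype.ext h

omit [CompleteSpace H] in
theorem eq_of_basis {S T : H →L[ℂ] H} (h : ∀ i, S (b i) = T (b i)) : S = T := by
  have hd : Dense (Submodule.span ℂ (Set.range b) : Set H) := by
    rw [dense_iff_closure_eq, ← Submodule.topologicalClosure_coe, b.dense_span]
    rfl
  refine ContinuousLinearMap.ext_on hd ?_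
  rintro _ ⟨i, rfl⟩
  exact h i

theorem vec_injective : Function.Injective (vec : Iso b → ℕ → H) := fun _ _ h =>
  ext_op (eq_of_basis (b := b) fun i => congrFun h i)

theorem exists_vec_eq (b : HilbertBasis ℕ ℂ H) {r : ℕ → H} (hr : Orthonormal ℂ r) :
    ∃ V : Iso b, V.vec = r := by
  let J : H →ₗᵢ[ℂ] H := hr.orthogonalFamily.linearIsometry.comp b.repr.toLinearIsometry
  have h1 : star J.toContinuousLinearMap * J.toContinuousLinearMap = 1 := by
    rw [ContinuousLinearMap.star_eq_adjoint]
    exact (ContinuousLinearMap.norm_map_iff_adjoint_comp_self J.toContinuousLinearMap).1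
      fun x => J.norm_map x
  refine ⟨⟨J.toContinuousLinearMap, h1⟩, ?_⟩
  funext i
  change hr.orthogonalFamily.linearIsometry (b.repr (b i)) = r i
  rw [b.repr_self]
  simp

noncomputable instance instTopology : TopologicalSpace (Iso b) :=
  TopologicalSpace.induced (vec : Iso b → ℕ → H) inferInstance

theorem continuous_vec : Continuous (vec : Iso b → ℕ → H) := continuous_induced_dom

omit [CompleteSpace H] in
theorem isClosed_orthonormal : IsClosed {r : ℕ → H | Orthonormal ℂ r} := by
  have e : {r : ℕ → H | Orthonormal ℂ r} =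
      (⋂ i, {r : ℕ → H | ‖r i‖ = 1}) ∩ ⋂ i, ⋂ j, ⋂ (_ : i ≠ j), {r : ℕ → H | ⟪r i, r j⟫_ℂ = 0} := by
    ext r
    simp only [mem_ofPred_eq, mem_inter_iff, mem_iInter]
    constructor
    · intro h
      exact ⟨h.1, fun i j hij => h.2 hij⟩
    · intro h
      exact ⟨h.1, fun i j hij => h.2 i j hij⟩
  rw [e]
  refine IsClosed.inter (isClosed_iInter fun i => ?_)
    (isClosed_iInter fun i => isClosed_iInter fun j => isClosed_iInter fun _ => ?_)
  · exact isClosed_eq (continuous_apply i).norm continuous_const
  · exact isClosed_eq ((continuous_apply i).inner (continuous_apply j)) continuous_const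

theorem isClosedEmbedding_vec : IsClosedEmbedding (vec : Iso b → ℕ → H) := by
  refine ⟨⟨⟨rfl⟩, vec_injective⟩, ?_⟩
  have e : Set.range (vec : Iso b → ℕ → H) = {r : ℕ → H | Orthonormal ℂ r} := by
    ext r
    constructor
    · rintro ⟨V, rfl⟩
      exact V.orthonormal_vec
    · intro hr
      exact exists_vec_eq b hr
  rw [e]
  exact isClosed_orthonormal

instance : TopologicalSpace.IsCompletelyMetrizableSpace (Iso b) :=
  isClosedEmbedding_vec.IsCompletelyMetrizableSpace

theorem continuous_op_apply (x : H) : Continuous fun V : Iso b => V.op x := by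
  have hspan : ∀ y ∈ Submodule.span ℂ (Set.range b), Continuous fun V : Iso b => V.op y := by
    intro y hy
    induction hy using Submodule.span_induction with
    | mem y hy =>
      obtain ⟨i, rfl⟩ := hy
      exact (continuous_apply i).comp continuous_vec
    | zero => simpa using continuous_const
    | add y z _ _ hy hz =>
      simp only [map_add]
      exact hy.add hz
    | smul a y _ hy =>
      simp only [map_smul]
      exact hy.const_smul a
  refine continuous_of_uniform_approx_of_continuous fun u hu => ?_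
  obtain ⟨ε, hε, hεu⟩ := Metric.mem_uniformity_dist.1 hu
  have hx : x ∈ (Submodule.span ℂ (Set.range b)).topologicalClosure := by
    rw [b.dense_span]; trivial
  obtain ⟨y, hy, hxy⟩ := Metric.mem_closure_iff.1 hx ε hε
  refine ⟨fun V => V.op y, hspan y hy, fun V => hεu ?_⟩
  rw [dist_eq_norm, ← map_sub, V.norm_op, ← dist_eq_norm]
  exact hxy

theorem continuous_eval : Continuous fun q : Iso b × H => q.1.op q.2 := by
  rw [continuous_iff_continuousAt]
  rintro ⟨V, x⟩
  rw [ContinuousAt, tendsto_iff_norm_sub_tendsto_zero]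
  have h1 : Tendsto (fun q : Iso b × H => ‖q.2 - x‖ + ‖q.1.op x - V.op x‖) (𝓝 (V, x))
      (𝓝 (0 + 0)) := by
    refine Tendsto.add ?_ ?_
    · have : Continuous fun q : Iso b × H => ‖q.2 - x‖ := (continuous_snd.sub continuous_const).norm
      simpa using this.tendsto (V, x)
    · have : Continuous fun q : Iso b × H => ‖q.1.op x - V.op x‖ :=
        (((continuous_op_apply x).comp continuous_fst).sub continuous_const).norm
      simpa using this.tendsto (V, x)
  rw [add_zero] at h1
  refine squeeze_zero (fun _ => norm_nonneg _) (fun q => ?_) h1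
  calc ‖q.1.op q.2 - V.op x‖ = ‖q.1.op (q.2 - x) + (q.1.op x - V.op x)‖ := by
        rw [map_sub]; congr 1; abel
    _ ≤ _ := (norm_add_le _ _).trans (by rw [q.1.norm_op])

/-- Composition with an isometry on the right. -/
def act (V : Iso b) (g : H →L[ℂ] H) (hg : star g * g = 1) : Iso b :=
  ⟨V.op * g, by
    rw [star_mul]
    calc star g * star V.op * (V.op * g) = star g * (star V.op * V.op) * g := by
          simp only [mul_assoc]
      _ = 1 := by rw [V.star_op_mul, mul_one, hg]⟩

theorem op_act (V : Iso b) (g : H →L[ℂ] H) (hg : star g * g = 1) : (V.act g hg).op = V.op * g :=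
  rfl

theorem continuous_into {X : Type*} [TopologicalSpace X] {F : X → Iso b}
    (h : ∀ i, Continuous fun x => (F x).vec i) : Continuous F :=
  continuous_induced_rng.2 (continuous_pi h)

/-- Open sets contain the points which agree with a given one in the first coordinates. -/
theorem exists_cyl {O : Set (Iso b)} (hO : IsOpen O) {V : Iso b} (hV : V ∈ O) :
    ∃ m, ∀ W : Iso b, (∀ i < m, W.vec i = V.vec i) → W ∈ O := by
  obtain ⟨t, ht, rfl⟩ := isOpen_induced_iff.1 hO
  obtain ⟨I, u, hu, hsub⟩ := isOpen_pi_iff.1 ht _ hV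
  refine ⟨I.sup id + 1, fun W hW => hsub ?_⟩
  intro i hi
  have h1 : i < I.sup id + 1 := Nat.lt_succ_of_le (Finset.le_sup (f := id) hi)
  rw [hW i h1]
  exact (hu i hi).2

theorem tendsto_of_eventually {ι : Type*} {l : Filter ι} {F : ι → Iso b} {V : Iso b}
    (h : ∀ i, ∀ᶠ k in l, (F k).vec i = V.vec i) : Tendsto F l (𝓝 V) := by
  rw [nhds_induced, tendsto_comap_iff, tendsto_pi_nhds]
  intro i
  refine tendsto_const_nhds.congr' ?_
  filter_upwards [h i] with k hk using hk.symm

end Iso

end Pool.Agent.Lib.MP_ec05f5_lc.Ess
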