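import Pool.Agent.Lib.MP_ec05f5_lc.Ess.Kernel
import Pool.Agent.Lib.MP_ec05f5_lc.Ess.Cayley
import Pool.Agent.Lib.MP_ec05f5_lc.Ess.Iso

/-!
# A countable group of finitely supported unitaries and its closure
-/

set_option autoImplicit false

namespace Pool.Agent.Lib.MP_ec05f5_lc.Ess

open Filter Topology Set InnerProductSpace
open scoped InnerProductSpace

theorem countable_closure {G : Type*} [Group G] {s : Set G} (hs : s.Countable) :
    Countable (Subgroup.closure s) := by
  have := hs.to_subtype
  have e : Subgroup.closure s = (FreeGroup.lift ((↑) : s → G)).range := by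
    rw [FreeGroup.range_lift_eq_closure]
    simp
  rw [e]
  exact (FreeGroup.lift ((↑) : s → G)).rangeRestrict_surjective.countable

variable {H : Type*} [NormedAddCommGroup H] [InnerProductSpace ℂ H] [CompleteSpace H]

/-- The unitary of a system of vectors. -/
noncomputable def gen (L : ℕ) (w : ℕ → H) : unitary (H →L[ℂ] H) :=
  cay ⟨kop L w, isSelfAdjoint_kop L w⟩

theorem coe_gen (L : ℕ) (w : ℕ → H) : ((gen L w : unitary (H →L[ℂ] H)) : H →L[ℂ] H) =
    cayE (kop L w) := rfl

/-- The generators. -/
def gens (b : HilbertBasis ℕ ℂ H) : Set (unitary (H →L[ℂ] H)) :=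
  Set.range fun t : ℕ × (ℕ →₀ ℕ) × Finset ℕ => gen t.1 (cut t.2.2 fun a => b (t.2.1 a))

/-- The countable group. -/
noncomputable def QQ (b : HilbertBasis ℕ ℂ H) : Subgroup (unitary (H →L[ℂ] H)) := Subgroup.closure (gens b)

variable (b : HilbertBasis ℕ ℂ H)

instance : Countable (QQ b) := countable_closure (Set.countable_range _)

variable {b}

theorem gen_mem (L : ℕ) (p : ℕ → ℕ) (A : Finset ℕ) :
    gen L (cut A fun a => b (p a)) ∈ QQ b := by
  classical
  refine Subgroup.subset_closure ⟨⟨L, Finsupp.onFinset A (fun a => if a ∈ A then p a else 0)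
    (fun a ha => by by_contra h; simp [h] at ha), A⟩, ?_⟩
  simp only
  congr 1
  funext a
  unfold cut
  split_ifs with h
  · simp [h]
  · rfl

theorem gen_apply_basis {p : ℕ → ℕ} {A : Finset ℕ} {i : ℕ} (hi : ∀ a ∈ A, p a ≠ i) (L : ℕ) :
    (gen L (cut A fun a => b (p a)) : H →L[ℂ] H) (b i) = b i := by
  rw [coe_gen]
  apply cayE_apply_of_zero (isSelfAdjoint_kop _ _)
  apply kop_apply_eq_zero
  intro a ha
  exact b.orthonormal.2 (hi a ha)

theorem unitary_star_mul (q : unitary (H →L[ℂ] H)) :
    star (q : H →L[ℂ] H) * (q : H →L[ℂ] H) = 1 := (Unitary.mem_iff.1 q.2).1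

theorem unitary_mul_star (q : unitary (H →L[ℂ] H)) :
    (q : H →L[ℂ] H) * star (q : H →L[ℂ] H) = 1 := (Unitary.mem_iff.1 q.2).2

theorem exists_fixed {q : unitary (H →L[ℂ] H)} (hq : q ∈ QQ b) :
    ∃ M, ∀ i ≥ M, (q : H →L[ℂ] H) (b i) = b i := by
  induction hq using Subgroup.closure_induction with
  | mem q hq =>
    obtain ⟨⟨L, p, A⟩, rfl⟩ := hq
    refine ⟨A.sup p + 1, fun i hi => gen_apply_basis (fun a ha => ?_) L⟩
    have h1 : p a ≤ A.sup p := Finset.le_sup (f := p) ha
    intro h2
    have h3 : p a = i := h2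
    omega
  | one => exact ⟨0, fun i _ => rfl⟩
  | mul q q' _ _ h h' =>
    obtain ⟨M, hM⟩ := h
    obtain ⟨M', hM'⟩ := h'
    refine ⟨max M M', fun i hi => ?_⟩
    rw [Submonoid.coe_mul, mul_apply_eq_comp, hM' i (le_of_max_le_right hi),
      hM i (le_of_max_le_left hi)]
  | inv q _ h =>
    obtain ⟨M, hM⟩ := h
    refine ⟨M, fun i hi => ?_⟩
    have h1 : ((q⁻¹ : unitary (H →L[ℂ] H)) : H →L[ℂ] H) = star (q : H →L[ℂ] H) := rfl
    calc ((q⁻¹ : unitary (H →L[ℂ] H)) : H →L[ℂ] H) (b i)
        = star (q : H →L[ℂ] H) ((q : H →L[ℂ] H) (b i)) := by rw [h1, hM i hi]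
      _ = b i := by rw [← mul_apply_eq_comp, unitary_star_mul, one_apply_eq_self]

omit [CompleteSpace H] in
theorem isCompactOperator_rankOne (x y : H) : IsCompactOperator (rankOne ℂ x y) := by
  have h : IsCompactOperator (ContinuousLinearMap.toSpanSingleton ℂ x) :=
    isCompactOperator_of_locallyCompactSpace_rng (ContinuousLinearMap.toSpanSingleton ℂ x)
  exact h.comp_clm (innerSL ℂ y)

/-- Operators vanishing on almost all basis vectors are compact. -/
theorem isCompactOperator_of_fixed {T : H →L[ℂ] H} {M : ℕ} (h : ∀ i ≥ M, T (b i) = 0) :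
    IsCompactOperator T := by
  have e : T = ∑ j ∈ Finset.range M, rankOne ℂ (T (b j)) (b j) := by
    refine Iso.eq_of_basis (b := b) fun i => ?_
    rw [_root_.sum_apply]
    simp only [rankOne_apply]
    by_cases hi : i < M
    · rw [Finset.sum_eq_single i]
      · rw [inner_self_eq_norm_sq_to_K, b.orthonormal.1 i]
        simp
      · intro j _ hj
        rw [b.orthonormal.2 hj, zero_smul]
      · exact fun h => absurd (Finset.mem_range.2 hi) h
    · rw [h i (not_lt.1 hi), Finset.sum_eq_zero]
      intro j hj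
      have hji : j ≠ i := by
        have := Finset.mem_range.1 hj
        omega
      rw [b.orthonormal.2 hji, zero_smul]
  have hc : ∀ s : Finset ℕ,
      IsCompactOperator (∑ j ∈ s, rankOne ℂ (T (b j)) (b j) : H →L[ℂ] H) := by
    intro s
    induction s using Finset.induction_on with
    | empty => simpa using isCompactOperator_zero
    | insert j s hj ih =>
      rw [Finset.sum_insert hj]
      exact (isCompactOperator_rankOne _ _).add ih
  rw [e]
  exact hc _

theorem isCompactOperator_sub_one {q : unitary (H →L[ℂ] H)} (hq : q ∈ QQ b) :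
    IsCompactOperator ((q : H →L[ℂ] H) - 1 : H →L[ℂ] H) := by
  obtain ⟨M, hM⟩ := exists_fixed hq
  refine isCompactOperator_of_fixed (b := b) (M := M) (T := (q : H →L[ℂ] H) - 1) fun i hi => ?_
  rw [sub_apply, hM i hi, one_apply_eq_self, sub_self]

variable (b) in
/-- The closure of the group in the operator norm. -/
def GG : Set (H →L[ℂ] H) := closure {g | ∃ q ∈ QQ b, (q : H →L[ℂ] H) = g}

theorem coe_mem_GG {q : unitary (H →L[ℂ] H)} (hq : q ∈ QQ b) : (q : H →L[ℂ] H) ∈ GG b :=
  subset_closure ⟨q, hq, rfl⟩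

theorem star_mul_of_mem {g : H →L[ℂ] H} (hg : g ∈ GG b) : star g * g = 1 := by
  have hc : IsClosed {g : H →L[ℂ] H | star g * g = 1} :=
    isClosed_eq (continuous_star.mul continuous_id) continuous_const
  refine closure_minimal ?_ hc hg
  rintro _ ⟨q, _, rfl⟩
  exact unitary_star_mul q

theorem isClosed_compact : IsClosed {T : H →L[ℂ] H | IsCompactOperator T} :=
  isClosed_setOfPred_isCompactOperator

theorem isCompactOperator_of_mem {g : H →L[ℂ] H} (hg : g ∈ GG b) :
    IsCompactOperator (g - 1 : H →L[ℂ] H) := by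
  have hc : IsClosed {g : H →L[ℂ] H | IsCompactOperator (g - 1 : H →L[ℂ] H)} :=
    isClosed_compact.preimage (f := fun g : H →L[ℂ] H => g - 1) (continuous_id.sub continuous_const)
  refine closure_minimal ?_ hc hg
  rintro _ ⟨q, hq, rfl⟩
  exact isCompactOperator_sub_one hq

theorem isCompactOperator_star_of_mem {g : H →L[ℂ] H} (hg : g ∈ GG b) :
    IsCompactOperator (star (g - 1) : H →L[ℂ] H) := by
  have hc : IsClosed {g : H →L[ℂ] H | IsCompactOperator (star (g - 1) : H →L[ℂ] H)} :=
    isClosed_compact.preimage (f := fun g : H →L[ℂ] H => star (g - 1))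
      (continuous_id.sub continuous_const).star
  refine closure_minimal ?_ hc hg
  rintro _ ⟨q, hq, rfl⟩
  have := isCompactOperator_sub_one ((QQ b).inv_mem hq)
  have e : ((q⁻¹ : unitary (H →L[ℂ] H)) : H →L[ℂ] H) - 1 = star ((q : H →L[ℂ] H) - 1) := by
    rw [star_sub, star_one]
    rfl
  rw [e] at this
  exact this

instance : CompleteSpace (GG b) := isClosed_closure.completeSpace_coe

/-! ### The action -/

namespace Iso

/-- The action of the unitary group. -/
def actU (V : Iso b) (q : unitary (H →L[ℂ] H)) : Iso b := V.act q (unitary_star_mul q)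

theorem op_actU (V : Iso b) (q : unitary (H →L[ℂ] H)) : (V.actU q).op = V.op * q := rfl

theorem actU_mul (V : Iso b) (q q' : unitary (H →L[ℂ] H)) :
    V.actU (q * q') = (V.actU q).actU q' := by
  apply ext_op
  rw [op_actU, op_actU, op_actU, Submonoid.coe_mul, mul_assoc]

theorem actU_one (V : Iso b) : V.actU 1 = V := by
  apply ext_op
  rw [op_actU, Submonoid.coe_one, mul_one]

theorem actU_inv (V : Iso b) (q : unitary (H →L[ℂ] H)) : (V.actU q).actU q⁻¹ = V := by
  rw [← actU_mul, mul_inv_cancel, actU_one]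

theorem actU_inv' (V : Iso b) (q : unitary (H →L[ℂ] H)) : (V.actU q⁻¹).actU q = V := by
  rw [← actU_mul, inv_mul_cancel, actU_one]

theorem continuous_actU (q : unitary (H →L[ℂ] H)) : Continuous fun V : Iso b => V.actU q :=
  continuous_into fun i => continuous_op_apply ((q : H →L[ℂ] H) (b i))

/-- The action as a homeomorphism. -/
noncomputable def homeo (q : unitary (H →L[ℂ] H)) : Iso b ≃ₜ Iso b where
  toFun V := V.actU q
  invFun V := V.actU q⁻¹
  left_inv V := V.actU_inv q
  right_inv V := V.actU_inv' q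
  continuous_toFun := continuous_actU q
  continuous_invFun := continuous_actU q⁻¹

/-- The action of the closure of the group. -/
def actG (q : GG b × Iso b) : Iso b := q.2.act q.1.1 (star_mul_of_mem q.1.2)

theorem continuous_actG : Continuous (actG : GG b × Iso b → Iso b) := by
  refine continuous_into fun i => ?_
  have h1 : Continuous fun q : GG b × Iso b => (q.1.1 (b i) : H) :=
    (ContinuousLinearMap.apply ℂ H (b i)).continuous.comp
      (continuous_subtype_val.comp continuous_fst)
  exact continuous_eval.comp (continuous_snd.prodMk h1)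

theorem actG_coe (q : unitary (H →L[ℂ] H)) (hq : q ∈ QQ b) (V : Iso b) :
    actG (⟨(q : H →L[ℂ] H), coe_mem_GG hq⟩, V) = V.actU q := rfl

end Iso

end Pool.Agent.Lib.MP_ec05f5_lc.Ess
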