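import Pool.Agent.Lib.MP_ec05f5_lc.Ess.Ultra

/-!
# Operators with ultrametric matrices
-/

set_option autoImplicit false

namespace Pool.Agent.Lib.MP_ec05f5_lc.Ess

open Finset InnerProductSpace
open scoped InnerProductSpace

variable {H : Type*} [NormedAddCommGroup H] [InnerProductSpace ℂ H] [CompleteSpace H]

/-- The operator with the matrix `um L / L` from the system `v` to the system `u`. -/
noncomputable def kop2 (L : ℕ) (u v : ℕ → H) : H →L[ℂ] H :=
  ((L : ℂ))⁻¹ • ∑ a ∈ range (2 ^ L), ∑ b ∈ range (2 ^ L),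
    (um L a b : ℂ) • rankOne ℂ (u a) (v b)

/-- The self-adjoint operator of a system. -/
noncomputable def kop (L : ℕ) (u : ℕ → H) : H →L[ℂ] H := kop2 L u u

/-- Restricting a system of vectors. -/
def cut (A : Finset ℕ) (w : ℕ → H) : ℕ → H := fun a => if a ∈ A then w a else 0

omit [CompleteSpace H] in
theorem kop2_apply (L : ℕ) (u v : ℕ → H) (x : H) : kop2 L u v x =
    ((L : ℂ))⁻¹ • ∑ a ∈ range (2 ^ L), ∑ b ∈ range (2 ^ L),
      (um L a b : ℂ) • (⟪v b, x⟫_ℂ • u a) := by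
  simp only [kop2, smul_apply, _root_.sum_apply, rankOne_apply]

omit [CompleteSpace H] in
theorem kop2_add_left (L : ℕ) (u u' v : ℕ → H) :
    kop2 L (u + u') v = kop2 L u v + kop2 L u' v := by
  simp only [kop2, Pi.add_apply, map_add, add_apply, smul_add, sum_add_distrib]

omit [CompleteSpace H] in
theorem kop2_add_right (L : ℕ) (u v v' : ℕ → H) :
    kop2 L u (v + v') = kop2 L u v + kop2 L u v' := by
  simp only [kop2, Pi.add_apply, map_add, smul_add, sum_add_distrib]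

theorem star_kop2 (L : ℕ) (u v : ℕ → H) : star (kop2 L u v) = kop2 L v u := by
  simp only [kop2, star_smul, star_sum]
  rw [sum_comm]
  congr 1
  · simp
  · refine sum_congr rfl fun a _ => sum_congr rfl fun b _ => ?_
    rw [ContinuousLinearMap.star_eq_adjoint, adjoint_rankOne, um_comm]
    simp

theorem isSelfAdjoint_kop (L : ℕ) (u : ℕ → H) : IsSelfAdjoint (kop L u) := star_kop2 L u u

omit [CompleteSpace H] in
theorem inner_kop2 (L : ℕ) (u v : ℕ → H) (x y : H) : ⟪x, kop2 L u v y⟫_ℂ =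
    ((L : ℂ))⁻¹ * ∑ a ∈ range (2 ^ L), ∑ b ∈ range (2 ^ L),
      (um L a b : ℂ) * (⟪x, u a⟫_ℂ * ⟪v b, y⟫_ℂ) := by
  rw [kop2_apply, inner_smul_right, inner_sum]
  congr 1
  refine sum_congr rfl fun a _ => ?_
  rw [inner_sum]
  refine sum_congr rfl fun b _ => ?_
  rw [inner_smul_right, inner_smul_right]
  ring

omit [CompleteSpace H] in
theorem norm_inner_cut_le (A : Finset ℕ) (w : ℕ → H) (x : H) (a : ℕ) :
    ‖⟪cut A w a, x⟫_ℂ‖ ≤ ‖⟪w a, x⟫_ℂ‖ := by
  unfold cut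
  split_ifs
  · exact le_rfl
  · simp

omit [CompleteSpace H] in
theorem sq_cut_le {w : ℕ → H} (hw : Orthonormal ℂ w) (L : ℕ) (A : Finset ℕ) (x : H) :
    sq L (fun a => ‖⟪cut A w a, x⟫_ℂ‖) ≤ ‖x‖ ^ 2 := by
  refine le_trans (sum_le_sum fun a _ => ?_) (hw.sum_inner_products_le x (s := range (2 ^ L)))
  gcongr
  exact norm_inner_cut_le A w x a

omit [CompleteSpace H] in
theorem norm_kop2_le {w : ℕ → H} (hw : Orthonormal ℂ w) {L j : ℕ} (hL : 0 < L) {A B : Finset ℕ}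
    (hA : ∀ a ∈ A, a < j) (hB : ∀ b ∈ B, j ≤ b) :
    ‖kop2 L (cut A w) (cut B w)‖ ≤ (√(L : ℝ))⁻¹ := by
  have hL' : (0 : ℝ) < L := by exact_mod_cast hL
  have key : ∀ x y : H, ‖⟪x, kop2 L (cut A w) (cut B w) y⟫_ℂ‖ ≤
      (√(L : ℝ))⁻¹ * ‖x‖ * ‖y‖ := by
    intro x y
    have h1 : ‖⟪x, kop2 L (cut A w) (cut B w) y⟫_ℂ‖ ≤
        (L : ℝ)⁻¹ * bf L (fun a => ‖⟪cut A w a, x⟫_ℂ‖) (fun b => ‖⟪cut B w b, y⟫_ℂ‖) := by
      rw [inner_kop2, norm_mul, norm_inv, Complex.norm_natCast]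
      gcongr
      unfold bf
      refine (norm_sum_le _ _).trans (sum_le_sum fun a _ => ?_)
      refine (norm_sum_le _ _).trans (sum_le_sum fun b _ => ?_)
      rw [norm_mul, norm_mul, Complex.norm_real, Real.norm_of_nonneg (um_nonneg L a b),
        norm_inner_symm x, mul_assoc]
    have h2 := bf_le L j (fun a => ‖⟪cut A w a, x⟫_ℂ‖) (fun b => ‖⟪cut B w b, y⟫_ℂ‖)
      (fun _ => norm_nonneg _) (fun _ => norm_nonneg _)
      (fun a ha => by
        have : a ∉ A := fun h => absurd (hA a h) (not_lt.2 ha)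
        simp [cut, this])
      (fun b hb => by
        have : b ∉ B := fun h => absurd hb (not_lt.2 (hB b h))
        simp [cut, this])
    have h3 : √(sq L (fun a => ‖⟪cut A w a, x⟫_ℂ‖)) ≤ ‖x‖ := by
      rw [← Real.sqrt_sq (norm_nonneg x)]
      exact Real.sqrt_le_sqrt (sq_cut_le hw L A x)
    have h4 : √(sq L (fun b => ‖⟪cut B w b, y⟫_ℂ‖)) ≤ ‖y‖ := by
      rw [← Real.sqrt_sq (norm_nonneg y)]
      exact Real.sqrt_le_sqrt (sq_cut_le hw L B y)
    calc _ ≤ (L : ℝ)⁻¹ * bf L (fun a => ‖⟪cut A w a, x⟫_ℂ‖) (fun b => ‖⟪cut B w b, y⟫_ℂ‖) := h1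
      _ ≤ (L : ℝ)⁻¹ * (√L * √(sq L (fun a => ‖⟪cut A w a, x⟫_ℂ‖)) *
          √(sq L (fun b => ‖⟪cut B w b, y⟫_ℂ‖))) := by gcongr
      _ ≤ (L : ℝ)⁻¹ * (√L * ‖x‖ * ‖y‖) := by gcongr
      _ = _ := by
        have e : (L : ℝ)⁻¹ * √L = (√(L : ℝ))⁻¹ := by
          rw [← Real.sqrt_div_self]
          ring
        rw [← e]
        ring
  refine ContinuousLinearMap.opNorm_le_bound _ (by positivity) fun y => ?_
  have h := key (kop2 L (cut A w) (cut B w) y) y
  rw [inner_self_eq_norm_sq_to_K] at h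
  have h5 : ‖((‖kop2 L (cut A w) (cut B w) y‖ : ℝ) : ℂ) ^ 2‖ =
      ‖kop2 L (cut A w) (cut B w) y‖ ^ 2 := by
    rw [norm_pow, Complex.norm_real, norm_norm]
  have h6 : ‖kop2 L (cut A w) (cut B w) y‖ ^ 2 ≤
      (√(L : ℝ))⁻¹ * ‖kop2 L (cut A w) (cut B w) y‖ * ‖y‖ := by
    rw [← h5]; exact h
  rcases (norm_nonneg (kop2 L (cut A w) (cut B w) y)).eq_or_lt with h7 | h7
  · rw [← h7]
    positivity
  · nlinarith

theorem norm_kop2_le' {w : ℕ → H} (hw : Orthonormal ℂ w) {L j : ℕ} (hL : 0 < L) {A B : Finset ℕ}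
    (hA : ∀ a ∈ A, a < j) (hB : ∀ b ∈ B, j ≤ b) :
    ‖kop2 L (cut B w) (cut A w)‖ ≤ (√(L : ℝ))⁻¹ := by
  rw [← star_kop2, norm_star]
  exact norm_kop2_le hw hL hA hB

omit [InnerProductSpace ℂ H] [CompleteSpace H] in
theorem cut_union {A B : Finset ℕ} (h : Disjoint A B) (w : ℕ → H) :
    cut (A ∪ B) w = cut A w + cut B w := by
  funext a
  simp only [cut, Pi.add_apply, mem_union]
  by_cases ha : a ∈ A
  · have hb : a ∉ B := disjoint_left.1 h ha
    simp [ha, hb]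
  · simp [ha]

omit [CompleteSpace H] in
theorem kop_union {A B : Finset ℕ} (h : Disjoint A B) (L : ℕ) (w : ℕ → H) :
    kop L (cut (A ∪ B) w) = kop L (cut A w) + kop L (cut B w) +
      (kop2 L (cut A w) (cut B w) + kop2 L (cut B w) (cut A w)) := by
  simp only [kop]
  rw [cut_union h, kop2_add_left, kop2_add_right, kop2_add_right]
  abel

omit [CompleteSpace H] in
theorem kop_single (L j : ℕ) (w : ℕ → H) : kop L (cut {j} w) = 0 := by
  rw [kop, kop2]
  have : ∀ a ∈ range (2 ^ L), ∀ b ∈ range (2 ^ L),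
      (um L a b : ℂ) • rankOne ℂ (cut {j} w a) (cut {j} w b) = 0 := by
    intro a _ b _
    by_cases ha : a = j
    · by_cases hb : b = j
      · subst ha; subst hb; simp [um_self]
      · simp [cut, hb]
    · simp [cut, ha]
  rw [sum_eq_zero fun a ha => sum_eq_zero fun b hb => this a ha b hb, smul_zero]

theorem norm_kop_union_sub {w : ℕ → H} (hw : Orthonormal ℂ w) {L j : ℕ} (hL : 0 < L)
    {A B : Finset ℕ} (hA : ∀ a ∈ A, a < j) (hB : ∀ b ∈ B, j ≤ b) :
    ‖kop L (cut (A ∪ B) w) - (kop L (cut A w) + kop L (cut B w))‖ ≤ 2 * (√(L : ℝ))⁻¹ := by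
  have h : Disjoint A B := disjoint_left.2 fun a ha hb => absurd (hA a ha) (not_lt.2 (hB a hb))
  rw [kop_union h, add_sub_cancel_left]
  refine (norm_add_le _ _).trans ?_
  linarith [norm_kop2_le hw hL hA hB, norm_kop2_le' hw hL hA hB]

theorem norm_kop_succ_sub {w : ℕ → H} (hw : Orthonormal ℂ w) {L : ℕ} (hL : 0 < L) (j : ℕ) :
    ‖kop L (cut (range (j + 1)) w) - kop L (cut (range j) w)‖ ≤ 2 * (√(L : ℝ))⁻¹ := by
  have e : range (j + 1) = range j ∪ {j} := by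
    ext a; simp; omega
  have h := norm_kop_union_sub hw hL (A := range j) (B := {j}) (j := j)
    (fun a ha => mem_range.1 ha) (fun b hb => (mem_singleton.1 hb).ge)
  rw [kop_single, add_zero] at h
  rw [e]
  exact h

omit [CompleteSpace H] in
theorem kop_apply_eq_zero {w : ℕ → H} {A : Finset ℕ} {x : H} (hx : ∀ a ∈ A, ⟪w a, x⟫_ℂ = 0)
    (L : ℕ) : kop L (cut A w) x = 0 := by
  rw [kop, kop2_apply, sum_eq_zero fun a _ => sum_eq_zero fun b _ => ?_, smul_zero]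
  by_cases hb : b ∈ A
  · simp [cut, hb, hx b hb]
  · simp [cut, hb]

omit [CompleteSpace H] in
theorem kop_mul_kop {w : ℕ → H} (hw : Orthonormal ℂ w) {A B : Finset ℕ} (h : Disjoint A B)
    (L : ℕ) : kop L (cut A w) * kop L (cut B w) = 0 := by
  ext x
  rw [mul_apply_eq_comp, zero_apply]
  apply kop_apply_eq_zero
  intro a ha
  rw [kop, inner_kop2, sum_eq_zero fun c _ => sum_eq_zero fun b _ => ?_, mul_zero]
  by_cases hc : c ∈ B
  · have hac : a ≠ c := fun e => disjoint_left.1 h ha (e ▸ hc)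
    simp [cut, hc, hw.2 hac]
  · simp [cut, hc]

omit [CompleteSpace H] in
theorem kop_apply_sum {w : ℕ → H} (hw : Orthonormal ℂ w) {L : ℕ} (hL : 0 < L) :
    kop L (cut (range (2 ^ L)) w) (∑ b ∈ range (2 ^ L), w b) = ∑ b ∈ range (2 ^ L), w b := by
  have hL' : (L : ℂ) ≠ 0 := by exact_mod_cast hL.ne'
  have h1 : ∀ b ∈ range (2 ^ L), ⟪w b, ∑ c ∈ range (2 ^ L), w c⟫_ℂ = 1 := by
    intro b hb
    rw [inner_sum, sum_eq_single b]
    · rw [inner_self_eq_norm_sq_to_K, hw.1 b]; simp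
    · intro c _ hc
      exact hw.2 hc.symm
    · exact fun h => absurd hb h
  rw [kop, kop2_apply]
  have h2 : ∀ a ∈ range (2 ^ L), ∑ b ∈ range (2 ^ L), (um L a b : ℂ) •
      (⟪cut (range (2 ^ L)) w b, ∑ c ∈ range (2 ^ L), w c⟫_ℂ • cut (range (2 ^ L)) w a) =
      (L : ℂ) • w a := by
    intro a ha
    have h3 : ∀ b ∈ range (2 ^ L), (um L a b : ℂ) •
      (⟪cut (range (2 ^ L)) w b, ∑ c ∈ range (2 ^ L), w c⟫_ℂ • cut (range (2 ^ L)) w a) =
        (um L a b : ℂ) • w a := by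
      intro b hb
      simp only [cut, if_pos ha, if_pos hb]
      rw [h1 b hb, one_smul]
    rw [sum_congr rfl h3, ← sum_smul]
    congr 1
    rw [← Complex.ofReal_sum, um_row L (mem_range.1 ha)]
    simp
  rw [sum_congr rfl h2, ← smul_sum, smul_smul, inv_mul_cancel₀ hL', one_smul]

end Pool.Agent.Lib.MP_ec05f5_lc.Ess
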