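import Pool.Agent.Lib.MP_ec05f5_lc.Ess.Step

/-!
# The infinite construction
-/

set_option autoImplicit false

namespace Pool.Agent.Lib.MP_ec05f5_lc.Ess

open Filter Topology Set
open scoped InnerProductSpace

variable {H : Type*} [NormedAddCommGroup H] [InnerProductSpace ℂ H] [CompleteSpace H]
variable {b : HilbertBasis ℕ ℂ H}

/-- A compact operator is small on orthonormal sequences. -/
theorem not_compact_of_orthonormal {K : H →L[ℂ] H} {x : ℕ → H} (hx : Orthonormal ℂ x)
    (h : ∀ k, 1 ≤ ‖K (x k)‖) : ¬ IsCompactOperator K := by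
  intro hK
  obtain ⟨S, hS, hKS⟩ := hK.image_closedBall_subset_compact (𝕜₁ := ℂ) (f := (K : H →ₗ[ℂ] H)) 1
  have hmem : ∀ k, K (x k) ∈ S := fun k => hKS ⟨x k, by
    rw [mem_closedBall_zero_iff, hx.1 k], rfl⟩
  obtain ⟨y, _, φ, hφ, hy⟩ := hS.tendsto_subseq hmem
  have h1 : 1 ≤ ‖y‖ := ge_of_tendsto' hy.norm fun k => h (φ k)
  have h2 : Tendsto (fun k => ⟪y, K (x (φ k))⟫_ℂ) atTop (𝓝 ⟪y, y⟫_ℂ) :=
    (tendsto_const_nhds (x := y)).inner hy
  have h3 : Tendsto (fun k => ⟪y, K (x k)⟫_ℂ) atTop (𝓝 0) := by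
    have h4 : Tendsto (fun k => ‖⟪x k, ContinuousLinearMap.adjoint K y⟫_ℂ‖ ^ 2) atTop (𝓝 0) :=
      (hx.inner_products_summable _).tendsto_atTop_zero
    have h5 : Tendsto (fun k => √(‖⟪x k, ContinuousLinearMap.adjoint K y⟫_ℂ‖ ^ 2)) atTop
        (𝓝 0) := by
      have := (Real.continuous_sqrt.tendsto 0).comp h4
      rwa [Real.sqrt_zero] at this
    refine squeeze_zero_norm (fun k => le_of_eq ?_) h5
    rw [Real.sqrt_sq (norm_nonneg _), ContinuousLinearMap.adjoint_inner_right, norm_inner_symm]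
  have h6 := tendsto_nhds_unique h2 (h3.comp hφ.tendsto_atTop)
  rw [inner_self_eq_zero] at h6
  rw [h6, norm_zero] at h1
  linarith

theorem op_eq_of_span {V W : Iso b} {s : Set ℕ} (h : ∀ i ∈ s, V.vec i = W.vec i) {x : H}
    (hx : x ∈ Submodule.span ℂ (b '' s)) : V.op x = W.op x := by
  induction hx using Submodule.span_induction with
  | mem y hy =>
    obtain ⟨i, hi, rfl⟩ := hy
    exact h i hi
  | zero => simp
  | add y z _ _ hy hz => rw [map_add, map_add, hy, hz]
  | smul a y _ hy => rw [map_smul, map_smul, hy]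

omit [CompleteSpace H] in
theorem inner_eq_zero_of_span {s t : Set ℕ} (h : Disjoint s t) {x y : H}
    (hx : x ∈ Submodule.span ℂ (b '' s)) (hy : y ∈ Submodule.span ℂ (b '' t)) :
    ⟪x, y⟫_ℂ = 0 := by
  induction hx using Submodule.span_induction with
  | mem u hu =>
    obtain ⟨i, hi, rfl⟩ := hu
    induction hy using Submodule.span_induction with
    | mem v hv =>
      obtain ⟨j, hj, rfl⟩ := hv
      exact b.orthonormal.2 fun e => Set.disjoint_left.1 h hi (e ▸ hj)
    | zero => simp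
    | add u v _ _ hu hv => rw [inner_add_right, hu, hv, add_zero]
    | smul a u _ hu => rw [inner_smul_right, hu, mul_zero]
  | zero => simp
  | add u v _ _ hu hv => rw [inner_add_left, hu, hv, add_zero]
  | smul a u _ hu => rw [inner_smul_left, hu, mul_zero]

/-- No Borel map to a product of metric spaces sees exactly whether a difference of isometries is
compact. -/
theorem no_reduction [MeasurableSpace (Iso b)] [BorelSpace (Iso b)] {X : ℕ → Type*}
    [∀ n, PseudoMetricSpace (X n)] [∀ n, SecondCountableTopology (X n)]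
    [∀ n, MeasurableSpace (X n)] [∀ n, BorelSpace (X n)] (f : Iso b → ∀ n, X n)
    (hf : ∀ n, Measurable fun V => f V n)
    (h1 : ∀ V V' : Iso b, IsCompactOperator (V.op - V'.op : H →L[ℂ] H) →
      IsCompactOperator (star (V.op - V'.op) : H →L[ℂ] H) →
      Tendsto (fun n => dist (f V n) (f V' n)) atTop (𝓝 0))
    (h2 : ∀ V V' : Iso b, Tendsto (fun n => dist (f V n) (f V' n)) atTop (𝓝 0) →
      IsCompactOperator (V.op - V'.op : H →L[ℂ] H)) : False := by
  -- the action
  have hact : ∀ (V : Iso b) (g : H →L[ℂ] H) (hg : g ∈ GG b),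
      Tendsto (fun n => dist (f (V.act g (star_mul_of_mem hg)) n) (f V n)) atTop (𝓝 0) := by
    intro V g hg
    have e : (V.act g (star_mul_of_mem hg)).op - V.op = V.op * (g - 1) := by
      rw [Iso.op_act, mul_sub, mul_one]
    refine h1 _ _ ?_ ?_
    · rw [e]
      exact (isCompactOperator_of_mem hg).clm_comp V.op
    · rw [e, star_mul]
      exact (isCompactOperator_star_of_mem hg).comp_clm (star V.op)
  have hfin : ∀ (V : Iso b), ∀ q ∈ QQ b,
      Tendsto (fun n => dist (f (V.actU q) n) (f V n)) atTop (𝓝 0) := fun V q hq =>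
    hact V q (coe_mem_GG hq)
  obtain ⟨C, hCG, hCd, hCQ, hCc⟩ := exists_invariant hf
  obtain ⟨V, hVC, hVG⟩ := exists_good hCG hCd hCQ hCc hact
  obtain ⟨D, hDo, hCD⟩ := isGδ_iff_eq_iInter_nat.1 hCG
  -- the states
  let P : Iso b → Prop := fun B => B ∈ C ∧ ∀ q ∈ QQ b, ∀ ε > 0, B.actU q ∈ Good f C ε
  have hP : ∀ B, P B → ∀ q ∈ QQ b, P (B.actU q) := by
    intro B hB q hq
    refine ⟨hCQ B hB.1 q hq, fun q' hq' ε hε => ?_⟩
    rw [← Iso.actU_mul]
    exact hB.2 _ ((QQ b).mul_mem hq hq') ε hε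
  have hstep : ∀ (k : ℕ) (s : {s : Iso b × ℕ // P s.1}), ∃ s' : {s : Iso b × ℕ // P s.1},
      ∃ q ∈ QQ b, ∃ x ∈ Submodule.span ℂ (b '' {i | s.1.2 ≤ i ∧ i < s'.1.2}),
        s'.1.1 = s.1.1.actU q ∧ s.1.2 < s'.1.2 ∧
        (∀ i < s.1.2, (q : H →L[ℂ] H) (b i) = b i) ∧
        (∀ i ≥ s'.1.2, (q : H →L[ℂ] H) (b i) = b i) ∧
        ‖x‖ = 1 ∧ 1 ≤ ‖(q : H →L[ℂ] H) x - x‖ ∧
        (∀ n, dist (f s'.1.1 n) (f s.1.1 n) ≤ (1 / 2) ^ k) ∧
        ∀ W : Iso b, (∀ i < s'.1.2, W.vec i = s'.1.1.vec i) → W ∈ D k := by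
    rintro k ⟨⟨B, m⟩, hB⟩
    have hε : (0 : ℝ) < (1 / 2) ^ k / 4 := by positivity
    have hG : B ∈ Good f C ((1 / 2) ^ k / 4) := by
      have := hB.2 1 (one_mem _) _ hε
      rwa [Iso.actU_one] at this
    obtain ⟨q, hq, M, hmM, hq1, hq2, ⟨x, hx, hx1, hx2⟩, hd⟩ :=
      exists_block hCQ hCc hfin hB.1 hε hG m
    have hB' : B.actU q ∈ D k := by
      have : B.actU q ∈ ⋂ n, D n := hCD ▸ hCQ B hB.1 q hq
      exact mem_iInter.1 this k
    obtain ⟨mk, hmk⟩ := Iso.exists_cyl (hDo k) hB'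
    refine ⟨⟨(B.actU q, max M mk), hP B hB q hq⟩, q, hq, x, ?_, rfl, ?_, hq1, ?_, hx1, hx2,
      ?_, ?_⟩
    · refine Submodule.span_mono (image_mono ?_) hx
      exact fun i hi => ⟨hi.1, hi.2.trans_le (le_max_left _ _)⟩
    · exact hmM.trans_le (le_max_left _ _)
    · exact fun i hi => hq2 i ((le_max_left _ _).trans hi)
    · intro n
      have := hd n
      have e : 4 * ((1 / 2 : ℝ) ^ k / 4) = (1 / 2) ^ k := by ring
      rwa [e] at this
    · exact fun W hW => hmk W fun i hi => hW i (hi.trans_le (le_max_right _ _))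
  choose F q hqQ x hxs hqB hqm hq1 hq2 hx1 hx2 hqd hqD using hstep
  let S : ℕ → {s : Iso b × ℕ // P s.1} := fun k =>
    Nat.rec ⟨(V, 0), hVC, hVG⟩ (fun k s => F k s) k
  have hS : ∀ k, S (k + 1) = F k (S k) := fun k => rfl
  let B : ℕ → Iso b := fun k => (S k).1.1
  let m : ℕ → ℕ := fun k => (S k).1.2
  let Q : ℕ → unitary (H →L[ℂ] H) := fun k => q k (S k)
  have hB0 : B 0 = V := rfl
  have hBs : ∀ k, B (k + 1) = (B k).actU (Q k) := fun k => hqB k (S k)
  have hm : StrictMono m := strictMono_nat_of_lt_succ fun k => hqm k (S k)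
  have hmk : ∀ k, k ≤ m k := hm.id_le
  have hagree : ∀ k l, k ≤ l → ∀ i < m k, (B l).vec i = (B k).vec i := by
    intro k l hkl i hi
    induction l, hkl using Nat.le_induction with
    | base => rfl
    | succ l hkl ih =>
      rw [hBs l, Iso.vec_actU (hq1 l (S l) i (hi.trans_le (hm.monotone hkl)))]
      exact ih
  have hbeyond : ∀ k, ∀ i ≥ m k, (B k).vec i = V.vec i := by
    intro k
    induction k with
    | zero => exact fun i _ => rfl
    | succ k ih =>
      intro i hi
      rw [hBs k, Iso.vec_actU (hq2 k (S k) i hi)]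
      exact ih i ((hm.monotone (Nat.le_succ k)).trans hi)
  have hBQ : ∀ k, ∃ q' ∈ QQ b, B k = V.actU q' := by
    intro k
    induction k with
    | zero => exact ⟨1, one_mem _, (Iso.actU_one V).symm⟩
    | succ k ih =>
      obtain ⟨q', hq', e⟩ := ih
      exact ⟨q' * Q k, (QQ b).mul_mem hq' (hqQ k (S k)), by rw [hBs k, e, Iso.actU_mul]⟩
  -- the limit
  have hr : Orthonormal ℂ fun i => (B (i + 1)).vec i := by
    have hval : ∀ i k, i + 1 ≤ k → (B (i + 1)).vec i = (B k).vec i := fun i k hk =>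
      (hagree (i + 1) k hk i (hmk (i + 1))).symm
    constructor
    · exact fun i => (B (i + 1)).orthonormal_vec.1 i
    · intro i j hij
      simp only
      rw [hval i (max (i + 1) (j + 1)) (le_max_left _ _),
        hval j (max (i + 1) (j + 1)) (le_max_right _ _)]
      exact (B (max (i + 1) (j + 1))).orthonormal_vec.2 hij
  obtain ⟨Z, hZ⟩ := Iso.exists_vec_eq b hr
  have hZB : ∀ k, ∀ i < m k, Z.vec i = (B k).vec i := by
    intro k i hi
    rw [hZ]
    simp only
    rw [← hagree (i + 1) (max k (i + 1)) (le_max_right _ _) i (hmk (i + 1)),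
      hagree k (max k (i + 1)) (le_max_left _ _) i hi]
  have hZC : Z ∈ C := by
    rw [hCD, mem_iInter]
    exact fun k => hqD k (S k) Z (hZB (k + 1))
  have hlim : Tendsto B atTop (𝓝 Z) := by
    refine Iso.tendsto_of_eventually fun i => ?_
    filter_upwards [eventually_ge_atTop (i + 1)] with k hk
    exact (hZB k i ((Nat.lt_of_succ_le hk).trans_le (hmk k))).symm
  have hdist : ∀ k l, k ≤ l → ∀ n, dist (f (B l) n) (f (B k) n) ≤
      2 * (1 / 2) ^ k - 2 * (1 / 2) ^ l := by
    intro k l hkl n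
    induction l, hkl using Nat.le_induction with
    | base => simp
    | succ l hkl ih =>
      have h3 : dist (f (B (l + 1)) n) (f (B l) n) ≤ (1 / 2) ^ l := hqd l (S l) n
      have h4 := dist_triangle (f (B (l + 1)) n) (f (B l) n) (f (B k) n)
      have e : (1 / 2 : ℝ) ^ (l + 1) = (1 / 2) ^ l / 2 := by ring
      rw [e]
      linarith
  have hZd : ∀ k n, dist (f Z n) (f (B k) n) ≤ 2 * (1 / 2) ^ k := by
    intro k n
    have h3 : Tendsto (fun l => f (B l) n) atTop (𝓝 (f Z n)) :=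
      (hCc n Z hZC).tendsto.comp
        (tendsto_nhdsWithin_iff.2 ⟨hlim, Eventually.of_forall fun l => (S l).2.1⟩)
    refine le_of_tendsto (h3.dist tendsto_const_nhds) ?_
    filter_upwards [eventually_ge_atTop k] with l hl
    have h4 := hdist k l hl n
    have h5 : (0 : ℝ) ≤ 2 * (1 / 2) ^ l := by positivity
    linarith
  have hfin' : Tendsto (fun n => dist (f Z n) (f V n)) atTop (𝓝 0) := by
    rw [Metric.tendsto_atTop]
    intro ε hε
    obtain ⟨k, hk⟩ := exists_pow_lt_of_lt_one (show (0 : ℝ) < ε / 4 by positivity)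
      (show (1 / 2 : ℝ) < 1 by norm_num)
    obtain ⟨q', hq', e⟩ := hBQ k
    have h3 := hfin V q' hq'
    rw [← e] at h3
    obtain ⟨N, hN⟩ := (h3.eventually_lt_const (half_pos hε)).exists_forall_of_atTop
    refine ⟨N, fun n hn => ?_⟩
    rw [Real.dist_0_eq_abs, abs_of_nonneg dist_nonneg]
    have h4 := dist_triangle (f Z n) (f (B k) n) (f V n)
    have h5 := hZd k n
    have h6 := hN n hn
    linarith
  -- the difference is not compact
  refine not_compact_of_orthonormal (x := fun k => x k (S k)) ?_ ?_ (h2 Z V hfin')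
  · constructor
    · exact fun k => hx1 k (S k)
    · have key : ∀ k l, k < l → ⟪x k (S k), x l (S l)⟫_ℂ = 0 := by
        intro k l hkl
        refine inner_eq_zero_of_span ?_ (hxs k (S k)) (hxs l (S l))
        rw [Set.disjoint_left]
        rintro i ⟨_, hi⟩ ⟨hi', _⟩
        have h3 : m (k + 1) ≤ m l := hm.monotone hkl
        have h4 : i < m (k + 1) := hi
        have h5 : m l ≤ i := hi'
        omega
      intro k l hkl
      rcases hkl.lt_or_gt with h3 | h3
      · exact key k l h3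
      · simp only
        rw [← inner_conj_symm, key l k h3, map_zero]
  · intro k
    have e1 : Z.op (x k (S k)) = (B (k + 1)).op (x k (S k)) :=
      op_eq_of_span (fun i hi => hZB (k + 1) i hi.2) (hxs k (S k))
    have e2 : (B k).op (x k (S k)) = V.op (x k (S k)) :=
      op_eq_of_span (fun i hi => hbeyond k i hi.1) (hxs k (S k))
    rw [sub_apply, e1, hBs k, Iso.op_actU, mul_apply_eq_comp, ← e2, ← map_sub, Iso.norm_op]
    exact hx2 k (S k)

end Pool.Agent.Lib.MP_ec05f5_lc.Ess
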