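import Pool.Agent.Lib.MP_ec05f5_lc.Ess.Limit
import Pool.Agent.Lib.MP_ec05f5_lc.Bases

/-!
# From isometries to projections
-/

set_option autoImplicit false

namespace Pool.Agent.Lib.MP_ec05f5_lc.Ess

open Filter Topology Set
open scoped InnerProductSpace

variable {H : Type*} [NormedAddCommGroup H] [InnerProductSpace ℂ H] [CompleteSpace H]
variable {b : HilbertBasis ℕ ℂ H}

omit [CompleteSpace H] in
theorem eq_zero_of_inner_basis (b : HilbertBasis ℕ ℂ H) {x : H} (h : ∀ i, ⟪b i, x⟫_ℂ = 0) :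
    x = 0 := by
  have h1 : b.repr x = 0 := by
    ext i
    rw [b.repr_apply_apply, h i]
    rfl
  simpa using h1

theorem exists_pair (b : HilbertBasis ℕ ℂ H) :
    ∃ J₀ J₁ : Iso b, star J₀.op * J₁.op = 0 ∧ star J₁.op * J₀.op = 0 := by
  obtain ⟨J₀, h₀⟩ := Iso.exists_vec_eq b
    (b.orthonormal.comp (fun i => 2 * i) fun i j h => by simpa using h)
  obtain ⟨J₁, h₁⟩ := Iso.exists_vec_eq b
    (b.orthonormal.comp (fun i => 2 * i + 1) fun i j h => by simpa using h)
  have key : star J₀.op * J₁.op = 0 := by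
    refine Iso.eq_of_basis (b := b) fun j => ?_
    rw [zero_apply, mul_apply_eq_comp]
    refine eq_zero_of_inner_basis b fun i => ?_
    rw [ContinuousLinearMap.star_eq_adjoint, ContinuousLinearMap.adjoint_inner_right]
    change ⟪J₀.vec i, J₁.vec j⟫_ℂ = 0
    rw [h₀, h₁]
    exact b.orthonormal.2 (show 2 * i ≠ 2 * j + 1 by omega)
  refine ⟨J₀, J₁, key, ?_⟩
  have := congrArg star key
  rwa [star_mul, star_star, star_zero] at this

/-- The isometry `(J₀ V + J₁) / √2`. -/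
noncomputable def mix (J₀ J₁ V : Iso b) : H →L[ℂ] H :=
  (((√2 : ℝ) : ℂ)⁻¹) • (J₀.op * V.op + J₁.op)

theorem half_eq : (((√2 : ℝ) : ℂ)⁻¹) * (((√2 : ℝ) : ℂ)⁻¹) = (2 : ℂ)⁻¹ := by
  rw [← mul_inv, ← Complex.ofReal_mul, Real.mul_self_sqrt (by norm_num)]
  norm_num

theorem star_mix (J₀ J₁ V : Iso b) : star (mix J₀ J₁ V) =
    (((√2 : ℝ) : ℂ)⁻¹) • (star V.op * star J₀.op + star J₁.op) := by
  rw [mix, star_smul, star_add, star_mul]
  congr 1
  simp

theorem star_mix_mul {J₀ J₁ : Iso b} (h : star J₀.op * J₁.op = 0) (h' : star J₁.op * J₀.op = 0)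
    (V : Iso b) : star (mix J₀ J₁ V) * mix J₀ J₁ V = 1 := by
  rw [star_mix, mix, smul_mul_assoc, mul_smul_comm, smul_smul, half_eq]
  have e : (star V.op * star J₀.op + star J₁.op) * (J₀.op * V.op + J₁.op) = (2 : ℂ) • 1 := by
    calc (star V.op * star J₀.op + star J₁.op) * (J₀.op * V.op + J₁.op)
        = star V.op * (star J₀.op * J₀.op) * V.op + star V.op * (star J₀.op * J₁.op) +
          (star J₁.op * J₀.op) * V.op + star J₁.op * J₁.op := by noncomm_ring
      _ = (2 : ℂ) • 1 := by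
        rw [J₀.star_op_mul, J₁.star_op_mul, h, h', mul_one, V.star_op_mul, mul_zero, zero_mul,
          add_zero, add_zero, two_smul]
  rw [e, smul_smul]
  norm_num

/-- The projection of an isometry. -/
noncomputable def pr (J₀ J₁ V : Iso b) : H →L[ℂ] H := mix J₀ J₁ V * star (mix J₀ J₁ V)

theorem isStarProjection_pr {J₀ J₁ : Iso b} (h : star J₀.op * J₁.op = 0)
    (h' : star J₁.op * J₀.op = 0) (V : Iso b) : IsStarProjection (pr J₀ J₁ V) := by
  constructor
  · have h1 := star_mix_mul h h' V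
    unfold IsIdempotentElem pr
    calc mix J₀ J₁ V * star (mix J₀ J₁ V) * (mix J₀ J₁ V * star (mix J₀ J₁ V))
        = mix J₀ J₁ V * (star (mix J₀ J₁ V) * mix J₀ J₁ V) * star (mix J₀ J₁ V) := by
          simp only [mul_assoc]
      _ = _ := by rw [h1, mul_one]
  · exact IsSelfAdjoint.mul_star_self _

theorem mix_sub (J₀ J₁ V V' : Iso b) : mix J₀ J₁ V - mix J₀ J₁ V' =
    (((√2 : ℝ) : ℂ)⁻¹) • (J₀.op * (V.op - V'.op)) := by
  rw [mix, mix, ← smul_sub, mul_sub]
  congr 1
  abel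

theorem isCompactOperator_pr_sub (J₀ J₁ V V' : Iso b)
    (h1 : IsCompactOperator (V.op - V'.op : H →L[ℂ] H))
    (h2 : IsCompactOperator (star (V.op - V'.op) : H →L[ℂ] H)) :
    IsCompactOperator (pr J₀ J₁ V - pr J₀ J₁ V' : H →L[ℂ] H) := by
  have e : pr J₀ J₁ V - pr J₀ J₁ V' =
      (mix J₀ J₁ V - mix J₀ J₁ V') * star (mix J₀ J₁ V) +
        mix J₀ J₁ V' * star (mix J₀ J₁ V - mix J₀ J₁ V') := by
    rw [pr, pr, star_sub]
    noncomm_ring
  have h3 : IsCompactOperator (mix J₀ J₁ V - mix J₀ J₁ V' : H →L[ℂ] H) := by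
    rw [mix_sub]
    exact (h1.clm_comp J₀.op).smul _
  have h4 : IsCompactOperator (star (mix J₀ J₁ V - mix J₀ J₁ V') : H →L[ℂ] H) := by
    rw [mix_sub, star_smul, star_mul]
    exact (h2.comp_clm (star J₀.op)).smul _
  rw [e]
  exact (h3.comp_clm (star (mix J₀ J₁ V))).add (h4.clm_comp (mix J₀ J₁ V'))

theorem sub_eq_compress {J₀ J₁ : Iso b} (h : star J₀.op * J₁.op = 0)
    (V V' : Iso b) : V.op - V'.op =
      (2 : ℂ) • (star J₀.op * (pr J₀ J₁ V - pr J₀ J₁ V') * J₁.op) := by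
  have key : ∀ W : Iso b, star J₀.op * pr J₀ J₁ W * J₁.op = (2 : ℂ)⁻¹ • W.op := by
    intro W
    rw [pr, star_mix, mix]
    have h0 : star J₁.op * J₀.op = 0 := by
      have := congrArg star h
      rwa [star_mul, star_star, star_zero] at this
    calc star J₀.op * ((((√2 : ℝ) : ℂ)⁻¹) • (J₀.op * W.op + J₁.op) *
          (((√2 : ℝ) : ℂ)⁻¹) • (star W.op * star J₀.op + star J₁.op)) * J₁.op
        = ((((√2 : ℝ) : ℂ)⁻¹) * (((√2 : ℝ) : ℂ)⁻¹)) •
          (((star J₀.op * J₀.op) * W.op + star J₀.op * J₁.op) *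
            (star W.op * (star J₀.op * J₁.op) + star J₁.op * J₁.op)) := by
          simp only [smul_mul_assoc, mul_smul_comm, smul_smul]
          congr 1
          noncomm_ring
      _ = _ := by
          rw [half_eq, h, J₀.star_op_mul, J₁.star_op_mul, mul_zero, zero_add, add_zero, one_mul,
            mul_one]
  rw [mul_sub, sub_mul, key, key, smul_sub, smul_smul, smul_smul]
  norm_num

theorem isCompactOperator_sub_of_pr {J₀ J₁ : Iso b} (h : star J₀.op * J₁.op = 0) (V V' : Iso b)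
    (hc : IsCompactOperator (pr J₀ J₁ V - pr J₀ J₁ V' : H →L[ℂ] H)) :
    IsCompactOperator (V.op - V'.op : H →L[ℂ] H) := by
  rw [sub_eq_compress h]
  exact ((hc.clm_comp (star J₀.op)).comp_clm J₁.op).smul _

/-! ### Measurability -/

theorem continuous_mix_apply (J₀ J₁ : Iso b) (i : ℕ) :
    Continuous fun V : Iso b => mix J₀ J₁ V (b i) := by
  have e : (fun V : Iso b => mix J₀ J₁ V (b i)) =
      fun V : Iso b => (((√2 : ℝ) : ℂ)⁻¹) • (J₀.op (V.op (b i)) + J₁.op (b i)) := rfl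
  rw [e]
  exact ((J₀.op.continuous.comp (Iso.continuous_op_apply (b i))).add
    continuous_const).const_smul _

theorem measurable_inner_pr [MeasurableSpace (Iso b)] [BorelSpace (Iso b)] (J₀ J₁ : Iso b)
    (ξ η : H) : Measurable fun V : Iso b => ⟪pr J₀ J₁ V ξ, η⟫_ℂ := by
  have hs : ∀ V : Iso b, HasSum (fun i => ⟪ξ, mix J₀ J₁ V (b i)⟫_ℂ *
      ⟪mix J₀ J₁ V (b i), η⟫_ℂ) ⟪pr J₀ J₁ V ξ, η⟫_ℂ := by
    intro V
    have h1 := b.hasSum_inner_mul_inner (star (mix J₀ J₁ V) ξ) (star (mix J₀ J₁ V) η)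
    have e1 : ⟪star (mix J₀ J₁ V) ξ, star (mix J₀ J₁ V) η⟫_ℂ = ⟪pr J₀ J₁ V ξ, η⟫_ℂ := by
      rw [pr, mul_apply_eq_comp, ContinuousLinearMap.star_eq_adjoint,
        ContinuousLinearMap.adjoint_inner_right]
    rw [e1] at h1
    refine h1.congr_fun fun i => ?_
    rw [ContinuousLinearMap.star_eq_adjoint, ContinuousLinearMap.adjoint_inner_left,
      ContinuousLinearMap.adjoint_inner_right]
  have hm : ∀ n, Measurable fun V : Iso b => ∑ i ∈ Finset.range n,
      ⟪ξ, mix J₀ J₁ V (b i)⟫_ℂ * ⟪mix J₀ J₁ V (b i), η⟫_ℂ := by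
    intro n
    refine Continuous.measurable (continuous_finsetSum _ fun i _ => ?_)
    exact ((continuous_const).inner (continuous_mix_apply J₀ J₁ i)).mul
      ((continuous_mix_apply J₀ J₁ i).inner continuous_const)
  exact measurable_of_tendsto_metrizable hm
    (tendsto_pi_nhds.2 fun V => (hs V).tendsto_sum_nat)

theorem measurable_pr [MeasurableSpace (Iso b)] [BorelSpace (Iso b)] (J₀ J₁ : Iso b) :
    @Measurable (Iso b) (H →L[ℂ] H) _ (weakBorel H) (pr J₀ J₁) := by
  rw [measurable_iff_comap_le, weakBorel]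
  simp only [MeasurableSpace.comap_iSup, MeasurableSpace.comap_comp]
  refine iSup₂_le fun ξ η => ?_
  have h1 := measurable_inner_pr J₀ J₁ ξ η
  rw [← measurable_iff_comap_le]
  rwa [BorelSpace.measurable_eq (α := ℂ)] at h1

/-- Essential equivalence of projections is not reducible to a relation of `c₀` type. -/
theorem not_reducible_projections [TopologicalSpace.SeparableSpace H]
    (hH : ¬ FiniteDimensional ℂ H) {X : ℕ → Type*} [∀ n, PseudoMetricSpace (X n)]
    [∀ n, SecondCountableTopology (X n)]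
    (F : {p : H →L[ℂ] H // IsStarProjection p} → ∀ n, X n)
    (hF : ∀ n, @Measurable _ _ ((weakBorel H).comap Subtype.val) (borel (X n)) fun p => F p n)
    (h : ∀ p q : {p : H →L[ℂ] H // IsStarProjection p},
      IsCompactOperator (p.1 - q.1 : H →L[ℂ] H) ↔
        Tendsto (fun n => dist (F p n) (F q n)) atTop (𝓝 0)) : False := by
  obtain ⟨b⟩ := exists_basis hH ℕ
  obtain ⟨J₀, J₁, h₀, h₁⟩ := exists_pair b
  let _ : MeasurableSpace (Iso b) := borel (Iso b)
  have : BorelSpace (Iso b) := ⟨rfl⟩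
  let _ : ∀ n, MeasurableSpace (X n) := fun n => borel (X n)
  have : ∀ n, BorelSpace (X n) := fun n => ⟨rfl⟩
  refine no_reduction (b := b) (X := X)
    (fun V n => F ⟨pr J₀ J₁ V, isStarProjection_pr h₀ h₁ V⟩ n) (fun n => ?_) ?_ ?_
  · have h1 : @Measurable (Iso b) {p : H →L[ℂ] H // IsStarProjection p} _
        ((weakBorel H).comap Subtype.val)
        fun V => ⟨pr J₀ J₁ V, isStarProjection_pr h₀ h₁ V⟩ := by
      rw [measurable_iff_comap_le, MeasurableSpace.comap_comp]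
      exact (measurable_pr J₀ J₁).comap_le
    exact (hF n).comp h1
  · intro V V' hc hc'
    exact (h _ _).1 (isCompactOperator_pr_sub J₀ J₁ V V' hc hc')
  · intro V V' ht
    exact isCompactOperator_sub_of_pr h₀ V V' ((h _ _).2 ht)

end Pool.Agent.Lib.MP_ec05f5_lc.Ess
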