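import Pool.Agent.Lib.MP_ec05f5_lc.Ess.Generic

/-!
# One block of the construction
-/

set_option autoImplicit false

namespace Pool.Agent.Lib.MP_ec05f5_lc.Ess

open Filter Topology Set

variable {H : Type*} [NormedAddCommGroup H] [InnerProductSpace ℂ H] [CompleteSpace H]
variable {b : HilbertBasis ℕ ℂ H}

/-! ### The unitaries -/

omit [InnerProductSpace ℂ H] [CompleteSpace H] in
theorem cut_congr {A : Finset ℕ} {w w' : ℕ → H} (h : ∀ a ∈ A, w a = w' a) :
    cut A w = cut A w' := by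
  funext a
  unfold cut
  split_ifs with ha
  · exact h a ha
  · rfl

theorem gen_congr {A : Finset ℕ} {p p' : ℕ → ℕ} (h : ∀ a ∈ A, p a = p' a) (L : ℕ) :
    gen L (cut A fun a => b (p a)) = gen L (cut A fun a => b (p' a)) := by
  rw [cut_congr fun a ha => by rw [h a ha]]

theorem gen_empty (L : ℕ) (w : ℕ → H) : gen L (cut ∅ w) = 1 := by
  apply Subtype.ext
  rw [coe_gen]
  have e : kop L (cut ∅ w) = 0 := by
    ext x
    exact kop_apply_eq_zero (fun a ha => absurd ha (Finset.notMem_empty a)) L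
  rw [e, cayE, res, smul_zero, sub_zero, Ring.inverse_one, two_smul, add_sub_cancel_right]
  rfl

theorem norm_inv_mul_sub_one (u v : unitary (H →L[ℂ] H)) :
    ‖((u⁻¹ * v : unitary (H →L[ℂ] H)) : H →L[ℂ] H) - 1‖ ≤
      ‖(v : H →L[ℂ] H) - (u : H →L[ℂ] H)‖ := by
  have e : ((u⁻¹ * v : unitary (H →L[ℂ] H)) : H →L[ℂ] H) - 1 =
      ((u⁻¹ : unitary (H →L[ℂ] H)) : H →L[ℂ] H) * ((v : H →L[ℂ] H) - (u : H →L[ℂ] H)) := by
    rw [mul_sub, Submonoid.coe_mul, ← Submonoid.coe_mul _ (u⁻¹) u, inv_mul_cancel]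
    rfl
  rw [e]
  calc _ ≤ ‖((u⁻¹ : unitary (H →L[ℂ] H)) : H →L[ℂ] H)‖ * ‖(v : H →L[ℂ] H) - (u : H →L[ℂ] H)‖ :=
        norm_mul_le _ _
    _ ≤ 1 * ‖(v : H →L[ℂ] H) - (u : H →L[ℂ] H)‖ := by
        gcongr
        exact norm_unitary_le (u⁻¹).2
    _ = _ := one_mul _

theorem norm_gen_succ_sub {w : ℕ → H} (hw : Orthonormal ℂ w) {L : ℕ} (hL : 0 < L) (j : ℕ) :
    ‖(gen L (cut (Finset.range (j + 1)) w) : H →L[ℂ] H) -
      (gen L (cut (Finset.range j) w) : H →L[ℂ] H)‖ ≤ 4 * (√(L : ℝ))⁻¹ := by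
  rw [coe_gen, coe_gen]
  have h1 := norm_cayE_sub_le (isSelfAdjoint_kop L (cut (Finset.range (j + 1)) w))
    (isSelfAdjoint_kop L (cut (Finset.range j) w))
  have h2 := norm_kop_succ_sub hw hL j
  linarith

theorem norm_gen_union_sub {w : ℕ → H} (hw : Orthonormal ℂ w) {L j : ℕ} (hL : 0 < L)
    {A B : Finset ℕ} (hA : ∀ a ∈ A, a < j) (hB : ∀ b ∈ B, j ≤ b) :
    ‖(gen L (cut (A ∪ B) w) : H →L[ℂ] H) -
      ((gen L (cut A w) * gen L (cut B w) : unitary (H →L[ℂ] H)) : H →L[ℂ] H)‖ ≤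
      4 * (√(L : ℝ))⁻¹ := by
  have h : Disjoint A B :=
    Finset.disjoint_left.2 fun a ha hb => absurd (hA a ha) (not_lt.2 (hB a hb))
  have e : ((gen L (cut A w) * gen L (cut B w) : unitary (H →L[ℂ] H)) : H →L[ℂ] H) =
      cayE (kop L (cut A w) + kop L (cut B w)) := by
    rw [cayE_add (isSelfAdjoint_kop _ _) (isSelfAdjoint_kop _ _) (kop_mul_kop hw h L)
      (kop_mul_kop hw h.symm L)]
    rfl
  rw [e, coe_gen]
  have h1 := norm_cayE_sub_le (isSelfAdjoint_kop L (cut (A ∪ B) w))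
    ((isSelfAdjoint_kop L (cut A w)).add (isSelfAdjoint_kop L (cut B w)))
  have h2 := norm_kop_union_sub hw hL hA hB
  linarith

theorem gen_apply_sum {w : ℕ → H} (hw : Orthonormal ℂ w) {L : ℕ} (hL : 0 < L) :
    (gen L (cut (Finset.range (2 ^ L)) w) : H →L[ℂ] H) (∑ a ∈ Finset.range (2 ^ L), w a) =
      Complex.I • ∑ a ∈ Finset.range (2 ^ L), w a := by
  rw [coe_gen]
  exact cayE_apply_of_eq (isSelfAdjoint_kop _ _) (kop_apply_sum hw hL)

theorem Iso.vec_actU {V : Iso b} {q : unitary (H →L[ℂ] H)} {i : ℕ}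
    (h : (q : H →L[ℂ] H) (b i) = b i) : (V.actU q).vec i = V.vec i := by
  rw [Iso.vec, Iso.vec, Iso.op_actU, mul_apply_eq_comp, h]

/-! ### The block -/

variable {X : ℕ → Type*} [∀ n, PseudoMetricSpace (X n)]

theorem exists_cyl_dist {f : Iso b → ∀ n, X n} {C : Set (Iso b)}
    (hCc : ∀ n, ContinuousOn (fun V => f V n) C) {B : Iso b} (hB : B ∈ C) (N : ℕ) {ε : ℝ}
    (hε : 0 < ε) : ∃ m, ∀ W ∈ C, (∀ i < m, W.vec i = B.vec i) → ∀ n < N,
      dist (f W n) (f B n) ≤ ε := by
  have h1 : ∀ n, ∃ m, ∀ W ∈ C, (∀ i < m, W.vec i = B.vec i) → dist (f W n) (f B n) ≤ ε := by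
    intro n
    have h2 := Metric.tendsto_nhds.1 (hCc n B hB) ε hε
    rw [eventually_nhdsWithin_iff] at h2
    obtain ⟨U, hU, hUo, hBU⟩ := eventually_nhds_iff.1 h2
    obtain ⟨m, hm⟩ := Iso.exists_cyl hUo hBU
    exact ⟨m, fun W hW h => (hU W (hm W h) hW).le⟩
  choose m hm using h1
  refine ⟨(Finset.range N).sup m, fun W hW h n hn => hm n W hW fun i hi => h i ?_⟩
  exact hi.trans_le (Finset.le_sup (f := m) (Finset.mem_range.2 hn))

/-- The choice of the places, one by one. -/
theorem exists_places {f : Iso b → ∀ n, X n} {C : Set (Iso b)}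
    (hCQ : ∀ V ∈ C, ∀ q ∈ QQ b, V.actU q ∈ C) (hCc : ∀ n, ContinuousOn (fun V => f V n) C)
    (hfin : ∀ (V : Iso b), ∀ q ∈ QQ b,
      Tendsto (fun n => dist (f (V.actU q) n) (f V n)) atTop (𝓝 0))
    {B : Iso b} (hB : B ∈ C) {ε : ℝ} (hε : 0 < ε) (m N L : ℕ) (j : ℕ) :
    ∃ p n : ℕ → ℕ, StrictMono p ∧ (∀ a, m ≤ p a) ∧ n 0 = N ∧
      (∀ i ≤ j, ∀ k ≥ n i,
        dist (f (B.actU (gen L (cut (Finset.range i) fun a => b (p a)))) k) (f B k) ≤ ε) ∧
      (∀ i < j, ∀ W ∈ C, (∀ l < p i, W.vec l =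
        (B.actU (gen L (cut (Finset.range i) fun a => b (p a)))).vec l) →
        ∀ k < n i, dist (f W k)
          (f (B.actU (gen L (cut (Finset.range i) fun a => b (p a)))) k) ≤ ε) := by
  induction j with
  | zero =>
    refine ⟨fun a => m + a, fun _ => N, fun a a' h => Nat.add_lt_add_left h m,
      fun a => Nat.le_add_right m a, rfl, ?_, fun i hi => absurd hi (Nat.not_lt_zero i)⟩
    intro i hi k _
    obtain rfl : i = 0 := Nat.le_zero.1 hi
    rw [Finset.range_zero, gen_empty, Iso.actU_one, dist_self]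
    exact hε.le
  | succ j ih =>
    obtain ⟨p, n, hp, hpm, hn0, h1, h2⟩ := ih
    have hbj : B.actU (gen L (cut (Finset.range j) fun a => b (p a))) ∈ C :=
      hCQ B hB _ (gen_mem L p _)
    obtain ⟨mj, hmj⟩ := exists_cyl_dist hCc hbj (n j) hε
    let K := max (p j) (max m mj)
    let p' : ℕ → ℕ := fun a => if a < j then p a else K + a
    have hp' : StrictMono p' := by
      intro a a' h
      have hpj : p j ≤ K := le_max_left _ _
      by_cases ha' : a' < j
      · have ha : a < j := h.trans ha'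
        simp only [p', if_pos ha, if_pos ha']
        exact hp h
      · by_cases ha : a < j
        · simp only [p', if_pos ha, if_neg ha']
          have := hp ha
          omega
        · simp only [p', if_neg ha, if_neg ha']
          omega
    have hpm' : ∀ a, m ≤ p' a := by
      intro a
      have hK : m ≤ K := (le_max_left _ _).trans (le_max_right _ _)
      by_cases ha : a < j
      · simp only [p', if_pos ha]
        exact hpm a
      · simp only [p', if_neg ha]
        omega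
    have hcongr : ∀ i ≤ j, gen L (cut (Finset.range i) fun a => b (p' a)) =
        gen L (cut (Finset.range i) fun a => b (p a)) := by
      intro i hi
      refine gen_congr (fun a ha => ?_) L
      have : a < j := (Finset.mem_range.1 ha).trans_le hi
      simp only [p', if_pos this]
    have hth := ((hfin B _ (gen_mem L p' (Finset.range (j + 1)))).eventually_lt_const
      hε).exists_forall_of_atTop
    obtain ⟨n₁, hn₁⟩ := hth
    let n' : ℕ → ℕ := fun i => if i ≤ j then n i else n₁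
    refine ⟨p', n', hp', hpm', by simp [n', hn0], ?_, ?_⟩
    · intro i hi k hk
      by_cases hij : i ≤ j
      · rw [hcongr i hij]
        simp only [n', if_pos hij] at hk
        exact h1 i hij k hk
      · obtain rfl : i = j + 1 := by omega
        simp only [n', if_neg hij] at hk
        exact (hn₁ k hk).le
    · intro i hi W hW hWl k hk
      have hij : i ≤ j := Nat.lt_succ_iff.1 hi
      rw [hcongr i hij] at hWl ⊢
      simp only [n', if_pos hij] at hk
      rcases hij.lt_or_eq with hlt | rfl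
      · simp only [p', if_pos hlt] at hWl
        exact h2 i hlt W hW hWl k hk
      · refine hmj W hW (fun l hl => hWl l ?_) k hk
        simp only [p', lt_irrefl, if_false]
        have hK : mj ≤ K := (le_max_right _ _).trans (le_max_right _ _)
        omega

/-- One block. -/
theorem exists_block {f : Iso b → ∀ n, X n} {C : Set (Iso b)}
    (hCQ : ∀ V ∈ C, ∀ q ∈ QQ b, V.actU q ∈ C) (hCc : ∀ n, ContinuousOn (fun V => f V n) C)
    (hfin : ∀ (V : Iso b), ∀ q ∈ QQ b,
      Tendsto (fun n => dist (f (V.actU q) n) (f V n)) atTop (𝓝 0))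
    {B : Iso b} (hB : B ∈ C) {ε : ℝ} (hε : 0 < ε) (hG : B ∈ Good f C ε) (m : ℕ) :
    ∃ q ∈ QQ b, ∃ M, m < M ∧ (∀ i < m, (q : H →L[ℂ] H) (b i) = b i) ∧
      (∀ i ≥ M, (q : H →L[ℂ] H) (b i) = b i) ∧
      (∃ x ∈ Submodule.span ℂ (b '' {i | m ≤ i ∧ i < M}), ‖x‖ = 1 ∧
        1 ≤ ‖(q : H →L[ℂ] H) x - x‖) ∧
      ∀ n, dist (f (B.actU q) n) (f B n) ≤ 4 * ε := by
  obtain ⟨O, hO, hBO, δ, hδ, N, hN⟩ := hG
  obtain ⟨m₀, hm₀⟩ := Iso.exists_cyl hO hBO
  obtain ⟨m₁, hm₁⟩ := exists_cyl_dist hCc hB N hε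
  obtain ⟨L, hL, hLδ⟩ : ∃ L : ℕ, 0 < L ∧ 4 * (√(L : ℝ))⁻¹ < δ := by
    obtain ⟨L, hL⟩ := exists_nat_gt ((4 / δ) ^ 2)
    have h1 : (0 : ℝ) < L := lt_of_le_of_lt (by positivity) hL
    refine ⟨L, by exact_mod_cast h1, ?_⟩
    have h2 : 4 / δ < √(L : ℝ) := Real.lt_sqrt_of_sq_lt hL
    have h3 : 0 < √(L : ℝ) := Real.sqrt_pos.2 h1
    rw [← div_eq_mul_inv, div_lt_iff₀ h3]
    rw [div_lt_iff₀ hδ] at h2
    linarith
  obtain ⟨p, n, hp, hpm, hn0, h1, h2⟩ :=
    exists_places hCQ hCc hfin hB hε (max m (max m₀ m₁)) N L (2 ^ L)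
  have hpm' : ∀ a, m ≤ p a ∧ m₀ ≤ p a ∧ m₁ ≤ p a := fun a =>
    ⟨(le_max_left _ _).trans (hpm a),
      ((le_max_left _ _).trans (le_max_right _ _)).trans (hpm a),
      ((le_max_right _ _).trans (le_max_right _ _)).trans (hpm a)⟩
  have hw : Orthonormal ℂ fun a => b (p a) := b.orthonormal.comp p hp.injective
  -- abbreviations
  let g : Finset ℕ → unitary (H →L[ℂ] H) := fun A => gen L (cut A fun a => b (p a))
  have hg : ∀ A, g A ∈ QQ b := fun A => gen_mem L p A
  have hfix : ∀ A : Finset ℕ, ∀ i, (∀ a ∈ A, p a ≠ i) → (g A : H →L[ℂ] H) (b i) = b i :=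
    fun A i hi => gen_apply_basis hi L
  have hfix' : ∀ A : Finset ℕ, ∀ i, i < m₀ ∨ i < m₁ ∨ i < m → (g A : H →L[ℂ] H) (b i) = b i :=
    fun A i hi => hfix A i fun a _ => by have := hpm' a; omega
  refine ⟨g (Finset.range (2 ^ L)), hg _, p (2 ^ L), ?_, ?_, ?_, ?_, ?_⟩
  · exact (hpm' 0).1.trans_lt (hp (by positivity))
  · exact fun i hi => hfix' _ i (Or.inr (Or.inr hi))
  · intro i hi
    refine hfix _ i fun a ha => ?_
    have := hp (Finset.mem_range.1 ha)
    omega
  · -- the vector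
    let x₀ : H := ∑ a ∈ Finset.range (2 ^ L), b (p a)
    have hx₀ : x₀ ≠ 0 := by
      intro h
      have h3 : inner ℂ (b (p 0)) x₀ = (1 : ℂ) := by
        rw [inner_sum, Finset.sum_eq_single 0]
        · rw [inner_self_eq_norm_sq_to_K, b.orthonormal.1 (p 0)]; simp
        · intro c _ hc
          exact hw.2 hc.symm
        · exact fun h => absurd (Finset.mem_range.2 (by positivity)) h
      rw [h, inner_zero_right] at h3
      exact zero_ne_one h3
    have hn : ‖x₀‖ ≠ 0 := norm_ne_zero_iff.2 hx₀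
    have hnC : ((‖x₀‖ : ℝ) : ℂ) ≠ 0 := by exact_mod_cast hn
    refine ⟨((‖x₀‖ : ℝ) : ℂ)⁻¹ • x₀, ?_, ?_, ?_⟩
    · refine Submodule.smul_mem _ _ (Submodule.sum_mem _ fun a ha => Submodule.subset_span ?_)
      exact ⟨p a, ⟨(hpm' a).1, hp (Finset.mem_range.1 ha)⟩, rfl⟩
    · rw [norm_smul, norm_inv, Complex.norm_real, norm_norm, inv_mul_cancel₀ hn]
    · have h3 : (g (Finset.range (2 ^ L)) : H →L[ℂ] H) x₀ = Complex.I • x₀ :=
        gen_apply_sum hw hL
      rw [map_smul, h3, ← smul_sub, norm_smul]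
      have h4 : Complex.I • x₀ - x₀ = (Complex.I - 1) • x₀ := by rw [sub_smul, one_smul]
      rw [h4, norm_smul, norm_inv, Complex.norm_real, norm_norm]
      have h5 : 1 ≤ ‖Complex.I - 1‖ := by
        have := Complex.abs_re_le_norm (Complex.I - 1)
        simpa using this
      calc (1 : ℝ) ≤ ‖Complex.I - 1‖ := h5
        _ = ‖x₀‖⁻¹ * (‖Complex.I - 1‖ * ‖x₀‖) := by field_simp
  · -- the distances
    intro k
    have hC : ∀ A, B.actU (g A) ∈ C := fun A => hCQ B hB _ (hg A)
    by_cases hk : k < N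
    · have := hm₁ (B.actU (g (Finset.range (2 ^ L)))) (hC _)
        (fun i hi => Iso.vec_actU (hfix' _ i (Or.inr (Or.inl hi)))) k hk
      linarith
    rw [not_lt] at hk
    by_cases hall : n (2 ^ L) ≤ k
    · have := h1 (2 ^ L) le_rfl k hall
      have h4 : dist (f (B.actU (g (Finset.range (2 ^ L)))) k) (f B k) ≤ ε := this
      linarith
    rw [not_le] at hall
    have hex : ∃ i, k < n i := ⟨2 ^ L, hall⟩
    classical
    obtain ⟨i, hi⟩ : ∃ i, Nat.find hex = i + 1 := by
      refine Nat.exists_eq_succ_of_ne_zero fun h0 => ?_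
      have := Nat.find_spec hex
      rw [h0, hn0] at this
      omega
    have hiJ : i + 1 ≤ 2 ^ L := by rw [← hi]; exact Nat.find_min' hex hall
    have hki : n i ≤ k := by
      have := Nat.find_min hex (m := i) (by omega)
      omega
    have hki' : k < n (i + 1) := by rw [← hi]; exact Nat.find_spec hex
    -- the points
    have s1 : dist (f (B.actU (g (Finset.range i))) k) (f B k) ≤ ε := h1 i (by omega) k hki
    have s2 : dist (f (B.actU (g (Finset.range (i + 1)))) k)
        (f (B.actU (g (Finset.range i))) k) ≤ ε := by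
      have h3 := hN (B.actU (g (Finset.range i))) (hC _)
        (hm₀ _ fun l hl => Iso.vec_actU (hfix' _ l (Or.inl hl)))
        ((g (Finset.range i))⁻¹ * g (Finset.range (i + 1)))
        ((QQ b).mul_mem ((QQ b).inv_mem (hg _)) (hg _))
        ((norm_inv_mul_sub_one _ _).trans_lt ((norm_gen_succ_sub hw hL i).trans_lt hLδ)) k hk
      rwa [← Iso.actU_mul, mul_inv_cancel_left] at h3
    let c : Iso b := B.actU (g (Finset.range (i + 1)) * g (Finset.Ico (i + 1) (2 ^ L)))
    have hcC : c ∈ C := hCQ B hB _ ((QQ b).mul_mem (hg _) (hg _))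
    have s3 : dist (f c k) (f (B.actU (g (Finset.range (i + 1)))) k) ≤ ε := by
      rcases hiJ.lt_or_eq with hlt | heq
      · refine h2 (i + 1) hlt c hcC (fun l hl => ?_) k hki'
        have : c = (B.actU (g (Finset.range (i + 1)))).actU (g (Finset.Ico (i + 1) (2 ^ L))) :=
          Iso.actU_mul _ _ _
        rw [this]
        refine Iso.vec_actU (hfix _ l fun a ha => ?_)
        have h4 := hp.monotone (Finset.mem_Ico.1 ha).1
        omega
      · have h4 : g (Finset.Ico (i + 1) (2 ^ L)) = 1 := by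
          rw [heq, Finset.Ico_self]
          exact gen_empty L _
        have h5 : c = B.actU (g (Finset.range (i + 1))) := by
          simp only [c]
          rw [h4, mul_one]
        rw [h5, dist_self]
        exact hε.le
    have s4 : dist (f (B.actU (g (Finset.range (2 ^ L)))) k) (f c k) ≤ ε := by
      have h3 := hN c hcC (hm₀ _ fun l hl => by
          have : c = (B.actU (g (Finset.range (i + 1)))).actU (g (Finset.Ico (i + 1) (2 ^ L))) :=
            Iso.actU_mul _ _ _
          rw [this, Iso.vec_actU (hfix' _ l (Or.inl hl)), Iso.vec_actU (hfix' _ l (Or.inl hl))])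
        ((g (Finset.range (i + 1)) * g (Finset.Ico (i + 1) (2 ^ L)))⁻¹ * g (Finset.range (2 ^ L)))
        ((QQ b).mul_mem ((QQ b).inv_mem ((QQ b).mul_mem (hg _) (hg _))) (hg _))
        ((norm_inv_mul_sub_one _ _).trans_lt (lt_of_le_of_lt ?_ hLδ)) k hk
      · rwa [← Iso.actU_mul, mul_inv_cancel_left] at h3
      · have h4 := norm_gen_union_sub hw (L := L) (j := i + 1) hL (A := Finset.range (i + 1))
          (B := Finset.Ico (i + 1) (2 ^ L)) (fun a ha => Finset.mem_range.1 ha)
          (fun a ha => (Finset.mem_Ico.1 ha).1)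
        have h5 : Finset.range (i + 1) ∪ Finset.Ico (i + 1) (2 ^ L) = Finset.range (2 ^ L) := by
          ext a
          simp only [Finset.mem_union, Finset.mem_range, Finset.mem_Ico]
          omega
        rw [h5] at h4
        exact h4
    calc dist (f (B.actU (g (Finset.range (2 ^ L)))) k) (f B k)
        ≤ dist (f (B.actU (g (Finset.range (2 ^ L)))) k) (f c k) +
          dist (f c k) (f (B.actU (g (Finset.range (i + 1)))) k) +
          dist (f (B.actU (g (Finset.range (i + 1)))) k) (f (B.actU (g (Finset.range i))) k) +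
          dist (f (B.actU (g (Finset.range i))) k) (f B k) := by
          have t1 := dist_triangle4 (f (B.actU (g (Finset.range (2 ^ L)))) k) (f c k)
            (f (B.actU (g (Finset.range (i + 1)))) k) (f (B.actU (g (Finset.range i))) k)
          have t2 := dist_triangle (f (B.actU (g (Finset.range (2 ^ L)))) k)
            (f (B.actU (g (Finset.range i))) k) (f B k)
          linarith
      _ ≤ 4 * ε := by linarith

end Pool.Agent.Lib.MP_ec05f5_lc.Ess
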