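import Mathlib

/-!
# Ultrametric matrices with a large norm and small corners
-/

set_option autoImplicit false

namespace Pool.Agent.Lib.MP_ec05f5_lc.Ess

open Finset

/-- The entries of the ultrametric matrices. -/
noncomputable def um : ℕ → ℕ → ℕ → ℝ
  | 0, _, _ => 0
  | L + 1, a, b =>
    if a < 2 ^ L then (if b < 2 ^ L then um L a b else ((2 : ℝ) ^ L)⁻¹)
    else (if b < 2 ^ L then ((2 : ℝ) ^ L)⁻¹ else um L (a - 2 ^ L) (b - 2 ^ L))

theorem um_comm (L a b : ℕ) : um L a b = um L b a := by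
  induction L generalizing a b with
  | zero => rfl
  | succ L ih =>
    unfold um
    by_cases h1 : a < 2 ^ L <;> by_cases h2 : b < 2 ^ L <;> simp [h1, h2]
    · exact ih a b
    · exact ih _ _

theorem um_self (L a : ℕ) : um L a a = 0 := by
  induction L generalizing a with
  | zero => rfl
  | succ L ih =>
    unfold um
    by_cases h1 : a < 2 ^ L <;> simp [h1, ih]

theorem um_nonneg (L a b : ℕ) : 0 ≤ um L a b := by
  induction L generalizing a b with
  | zero => exact le_rfl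
  | succ L ih =>
    unfold um
    by_cases h1 : a < 2 ^ L <;> by_cases h2 : b < 2 ^ L <;> simp [h1, h2, ih]

theorem um_ll {L a b : ℕ} (h1 : a < 2 ^ L) (h2 : b < 2 ^ L) : um (L + 1) a b = um L a b := by
  rw [um, if_pos h1, if_pos h2]

theorem um_lr {L a b : ℕ} (h1 : a < 2 ^ L) : um (L + 1) a (2 ^ L + b) = ((2 : ℝ) ^ L)⁻¹ := by
  rw [um, if_pos h1, if_neg (by omega)]

theorem um_rl {L a b : ℕ} (h2 : b < 2 ^ L) : um (L + 1) (2 ^ L + a) b = ((2 : ℝ) ^ L)⁻¹ := by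
  rw [um, if_neg (by omega), if_pos h2]

theorem um_rr {L a b : ℕ} : um (L + 1) (2 ^ L + a) (2 ^ L + b) = um L a b := by
  rw [um, if_neg (by omega), if_neg (by omega), Nat.add_sub_cancel_left, Nat.add_sub_cancel_left]

theorem sum_split {M : Type*} [AddCommMonoid M] (L : ℕ) (f : ℕ → M) :
    ∑ a ∈ range (2 ^ (L + 1)), f a =
      ∑ a ∈ range (2 ^ L), f a + ∑ a ∈ range (2 ^ L), f (2 ^ L + a) := by
  rw [pow_succ, mul_two, sum_range_add]

theorem um_row (L : ℕ) {a : ℕ} (ha : a < 2 ^ L) : ∑ b ∈ range (2 ^ L), um L a b = L := by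
  induction L generalizing a with
  | zero => simp [um]
  | succ L ih =>
    have hp : ((2 : ℝ) ^ L) ≠ 0 := by positivity
    rw [sum_split]
    by_cases h1 : a < 2 ^ L
    · rw [sum_congr rfl fun b hb => um_ll h1 (mem_range.1 hb),
        sum_congr rfl fun b _ => um_lr (b := b) h1, ih h1]
      simp only [sum_const, card_range, nsmul_eq_mul]
      push_cast
      rw [mul_inv_cancel₀ hp]
    · obtain ⟨c, rfl⟩ := Nat.exists_eq_add_of_le (not_lt.1 h1)
      have hc : c < 2 ^ L := by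
        have : 2 ^ L + c < 2 ^ L + 2 ^ L := by
          calc _ < 2 ^ (L + 1) := ha
            _ = _ := by ring
        omega
      rw [sum_congr rfl fun b hb => um_rl (a := c) (mem_range.1 hb),
        sum_congr rfl fun b _ => um_rr (a := c) (b := b), ih hc]
      simp only [sum_const, card_range, nsmul_eq_mul]
      push_cast
      rw [mul_inv_cancel₀ hp, add_comm]

/-- The bilinear form. -/
noncomputable def bf (L : ℕ) (ξ η : ℕ → ℝ) : ℝ :=
  ∑ a ∈ range (2 ^ L), ∑ b ∈ range (2 ^ L), um L a b * ξ a * η b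

/-- The square of the length. -/
noncomputable def sq (L : ℕ) (ξ : ℕ → ℝ) : ℝ := ∑ a ∈ range (2 ^ L), ξ a ^ 2

/-- The sum of the coordinates. -/
noncomputable def sg (L : ℕ) (ξ : ℕ → ℝ) : ℝ := ∑ a ∈ range (2 ^ L), ξ a

theorem sq_nonneg' (L : ℕ) (ξ : ℕ → ℝ) : 0 ≤ sq L ξ := sum_nonneg fun _ _ => sq_nonneg _

theorem sq_succ (L : ℕ) (ξ : ℕ → ℝ) : sq (L + 1) ξ = sq L ξ + sq L fun a => ξ (2 ^ L + a) :=
  sum_split L _

theorem sg_le (L : ℕ) (ξ : ℕ → ℝ) : sg L ξ ≤ √((2 : ℝ) ^ L) * √(sq L ξ) := by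
  have h1 : sg L ξ ^ 2 ≤ (2 : ℝ) ^ L * sq L ξ := by
    have := sum_mul_sq_le_sq_mul_sq (range (2 ^ L)) (fun _ => (1 : ℝ)) ξ
    simpa [sg, sq] using this
  have h2 : |sg L ξ| ≤ √((2 : ℝ) ^ L * sq L ξ) := Real.abs_le_sqrt h1
  rw [Real.sqrt_mul (by positivity)] at h2
  exact (le_abs_self _).trans h2

theorem bf_succ (L : ℕ) (ξ η : ℕ → ℝ) : bf (L + 1) ξ η =
    bf L ξ η + ((2 : ℝ) ^ L)⁻¹ * sg L ξ * sg L (fun b => η (2 ^ L + b)) +
    (((2 : ℝ) ^ L)⁻¹ * sg L (fun a => ξ (2 ^ L + a)) * sg L η +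
      bf L (fun a => ξ (2 ^ L + a)) (fun b => η (2 ^ L + b))) := by
  have e1 : ∀ a ∈ range (2 ^ L), ∑ b ∈ range (2 ^ (L + 1)), um (L + 1) a b * ξ a * η b =
      ∑ b ∈ range (2 ^ L), um L a b * ξ a * η b +
        ((2 : ℝ) ^ L)⁻¹ * ξ a * sg L (fun b => η (2 ^ L + b)) := by
    intro a ha
    rw [sum_split]
    congr 1
    · exact sum_congr rfl fun b hb => by rw [um_ll (mem_range.1 ha) (mem_range.1 hb)]
    · rw [sg, mul_sum]
      exact sum_congr rfl fun b _ => by rw [um_lr (mem_range.1 ha)]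
  have e2 : ∀ a ∈ range (2 ^ L),
      ∑ b ∈ range (2 ^ (L + 1)), um (L + 1) (2 ^ L + a) b * ξ (2 ^ L + a) * η b =
      ((2 : ℝ) ^ L)⁻¹ * ξ (2 ^ L + a) * sg L η +
      ∑ b ∈ range (2 ^ L), um L a b * ξ (2 ^ L + a) * η (2 ^ L + b) := by
    intro a _
    rw [sum_split]
    congr 1
    · rw [sg, mul_sum]
      exact sum_congr rfl fun b hb => by rw [um_rl (mem_range.1 hb)]
    · exact sum_congr rfl fun b _ => by rw [um_rr]
  have e3 : ∀ (ζ : ℕ → ℝ) (S : ℝ), ∑ a ∈ range (2 ^ L), ((2 : ℝ) ^ L)⁻¹ * ζ a * S =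
      ((2 : ℝ) ^ L)⁻¹ * sg L ζ * S := fun ζ S => by rw [sg, mul_sum, sum_mul]
  rw [bf, sum_split, sum_congr rfl e1, sum_congr rfl e2, sum_add_distrib, sum_add_distrib,
    e3, e3 fun a => ξ (2 ^ L + a)]
  rfl

theorem corner_aux {s A B C D r : ℝ} (_hA : 0 ≤ A) (hB : 0 ≤ B) (hC : 0 ≤ C) (hs : 0 ≤ s)
    (hr : r = s + 1) :
    √s * √A * √B + √A * √C ≤ √r * √(A + D) * √(B + C) ∨ D < 0 := by
  by_cases hD : D < 0
  · exact Or.inr hD
  left
  rw [not_lt] at hD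
  subst hr
  have h1 : √s * √B + √C ≤ √(s + 1) * √(B + C) := by
    rw [← Real.sqrt_mul (by positivity : (0 : ℝ) ≤ s + 1)]
    apply Real.le_sqrt_of_sq_le
    have e1 := Real.sq_sqrt hs
    have e2 := Real.sq_sqrt hB
    have e3 := Real.sq_sqrt hC
    have h := sq_nonneg (√s * √C - √B)
    nlinarith
  have h2 : √A ≤ √(A + D) := Real.sqrt_le_sqrt (by linarith)
  calc √s * √A * √B + √A * √C = √A * (√s * √B + √C) := by ring
    _ ≤ √(A + D) * (√(s + 1) * √(B + C)) := by gcongr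
    _ = _ := by ring

/-- The corner estimate. -/
theorem bf_le (L j : ℕ) (ξ η : ℕ → ℝ) (hξ0 : ∀ a, 0 ≤ ξ a) (hη0 : ∀ a, 0 ≤ η a)
    (hξ : ∀ a, j ≤ a → ξ a = 0) (hη : ∀ b, b < j → η b = 0) :
    bf L ξ η ≤ √L * √(sq L ξ) * √(sq L η) := by
  induction L generalizing j ξ η with
  | zero => simp [bf, um]
  | succ L ih =>
    have hp : (0 : ℝ) < 2 ^ L := by positivity
    have key : ((2 : ℝ) ^ L)⁻¹ * sg L ξ * sg L (fun b => η (2 ^ L + b)) ≤
        √(sq L ξ) * √(sq L fun b => η (2 ^ L + b)) := by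
      have h1 := sg_le L ξ
      have h2 := sg_le L (fun b => η (2 ^ L + b))
      have h3 : 0 ≤ sg L ξ := sum_nonneg fun a _ => hξ0 a
      have h4 : sg L ξ * sg L (fun b => η (2 ^ L + b)) ≤
          (√((2 : ℝ) ^ L) * √(sq L ξ)) * (√((2 : ℝ) ^ L) * √(sq L fun b => η (2 ^ L + b))) :=
        mul_le_mul h1 h2 (sum_nonneg fun a _ => hη0 _) (by positivity)
      have h5 : √((2 : ℝ) ^ L) * √((2 : ℝ) ^ L) = (2 : ℝ) ^ L :=
        Real.mul_self_sqrt (by positivity)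
      calc ((2 : ℝ) ^ L)⁻¹ * sg L ξ * sg L (fun b => η (2 ^ L + b))
          = ((2 : ℝ) ^ L)⁻¹ * (sg L ξ * sg L (fun b => η (2 ^ L + b))) := by ring
        _ ≤ ((2 : ℝ) ^ L)⁻¹ * ((√((2 : ℝ) ^ L) * √(sq L ξ)) *
            (√((2 : ℝ) ^ L) * √(sq L fun b => η (2 ^ L + b)))) := by gcongr
        _ = ((2 : ℝ) ^ L)⁻¹ * (√((2 : ℝ) ^ L) * √((2 : ℝ) ^ L)) *
            (√(sq L ξ) * √(sq L fun b => η (2 ^ L + b))) := by ring
        _ = _ := by rw [h5, inv_mul_cancel₀ hp.ne', one_mul]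
    rw [bf_succ, sq_succ, sq_succ]
    rcases le_or_gt j (2 ^ L) with hj | hj
    · have e0 : ∀ a, ξ (2 ^ L + a) = 0 := fun a => hξ _ (by omega)
      have e1 : bf L (fun a => ξ (2 ^ L + a)) (fun b => η (2 ^ L + b)) = 0 := by
        simp [bf, e0]
      have e2 : sg L (fun a => ξ (2 ^ L + a)) = 0 := by simp [sg, e0]
      have h1 := ih j ξ η hξ0 hη0 hξ hη
      rcases corner_aux (sq_nonneg' L ξ) (sq_nonneg' L η)
        (sq_nonneg' L fun b => η (2 ^ L + b)) (s := (L : ℝ)) (r := ((L + 1 : ℕ) : ℝ))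
        (D := sq L fun a => ξ (2 ^ L + a)) (Nat.cast_nonneg _) (by push_cast; ring) with h2 | h2
      · rw [e1, e2]
        linarith
      · exact absurd h2 (not_lt.2 (sq_nonneg' L _))
    · have e0 : ∀ b ∈ range (2 ^ L), η b = 0 := fun b hb =>
        hη _ (lt_trans (mem_range.1 hb) hj)
      have e1 : bf L ξ η = 0 := sum_eq_zero fun a _ => sum_eq_zero fun b hb => by
        rw [e0 b hb, mul_zero]
      have e2 : sg L η = 0 := sum_eq_zero e0
      have h1 := ih (j - 2 ^ L) (fun a => ξ (2 ^ L + a)) (fun b => η (2 ^ L + b))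
        (fun a => hξ0 _) (fun a => hη0 _) (fun a ha => hξ _ (by omega))
        (fun b hb => hη _ (by omega))
      rcases corner_aux (sq_nonneg' L fun b => η (2 ^ L + b))
        (sq_nonneg' L fun b => ξ (2 ^ L + b)) (sq_nonneg' L ξ)
        (s := (L : ℝ)) (r := ((L + 1 : ℕ) : ℝ))
        (D := sq L η) (Nat.cast_nonneg _) (by push_cast; ring) with h2 | h2
      · rw [e1, e2, add_comm (sq L ξ), add_comm (sq L η)]
        linarith [mul_comm (√(sq L ξ)) (√(sq L fun b => η (2 ^ L + b))), mul_comm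
          (√((L + 1 : ℕ) : ℝ) * √(sq L (fun b => η (2 ^ L + b)) + sq L η))
          (√(sq L (fun b => ξ (2 ^ L + b)) + sq L ξ)), mul_comm (√(L : ℝ) *
          √(sq L fun b => ξ (2 ^ L + b))) (√(sq L fun b => η (2 ^ L + b))),
          mul_assoc (√(L : ℝ)) (√(sq L fun b => η (2 ^ L + b)))
            (√(sq L fun b => ξ (2 ^ L + b))),
          mul_assoc (√(L : ℝ)) (√(sq L fun b => ξ (2 ^ L + b)))
            (√(sq L fun b => η (2 ^ L + b))),
          mul_assoc (√((L + 1 : ℕ) : ℝ)) (√(sq L (fun b => ξ (2 ^ L + b)) + sq L ξ))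
            (√(sq L (fun b => η (2 ^ L + b)) + sq L η)),
          mul_assoc (√((L + 1 : ℕ) : ℝ)) (√(sq L (fun b => η (2 ^ L + b)) + sq L η))
            (√(sq L (fun b => ξ (2 ^ L + b)) + sq L ξ)),
          mul_comm (√(sq L (fun b => ξ (2 ^ L + b)) + sq L ξ))
            (√(sq L (fun b => η (2 ^ L + b)) + sq L η)),
          mul_comm (√(sq L fun b => ξ (2 ^ L + b))) (√(sq L fun b => η (2 ^ L + b)))]
      · exact absurd h2 (not_lt.2 (sq_nonneg' L _))

end Pool.Agent.Lib.MP_ec05f5_lc.Ess
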